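import Pool.Agent.W581.Cyc.Defs

set_option autoImplicit false

open MeasureTheory Set Topology
open scoped ContDiff NNReal

namespace Pool.Agent.W581.Cyc

/-- The standard Kähler form. -/
noncomputable def kahler : C2 [⋀^Fin 2]→L[ℝ] ℝ :=
  AlternatingMap.mkContinuous
    { toFun := fun v => (inner ℂ (v 0) (v 1)).im
      map_update_add' := by
        intro _ v i x y
        fin_cases i
        · simp
        · simp
      map_update_smul' := by
        intro _ v i c x
        have h0 : ∀ (c : ℝ) (x y : C2), inner ℂ (c • x) y = (c : ℂ) * inner ℂ x y := by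
          intro c x y
          rw [← Complex.coe_smul, inner_smul_left]; simp
        have h1 : ∀ (c : ℝ) (x y : C2), inner ℂ x (c • y) = (c : ℂ) * inner ℂ x y := by
          intro c x y
          rw [← Complex.coe_smul, inner_smul_right]
        fin_cases i
        · simp [h0]
        · simp [h1]
      map_eq_zero_of_eq' := by
        intro v i j hij hne
        have : v 0 = v 1 := by
          fin_cases i <;> fin_cases j <;> simp_all
        simp only [this]
        have := inner_self_im (𝕜 := ℂ) (v 1)
        simpa using this } 1 (by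
    intro v
    simp only [AlternatingMap.coe_mk, MultilinearMap.coe_mk, Fin.prod_univ_two, one_mul]
    exact (Complex.abs_im_le_norm _).trans (norm_inner_le_norm _ _))

theorem kahler_apply (e : C2) : kahler ![e, Complex.I • e] = ‖e‖ ^ 2 := by
  show (inner ℂ (![e, Complex.I • e] 0) (![e, Complex.I • e] 1)).im = _
  simp only [Matrix.cons_val_zero, Matrix.cons_val_one]
  rw [inner_smul_right, inner_self_eq_norm_sq_to_K]
  simp only [Complex.mul_im, Complex.I_re, Complex.I_im, zero_mul, one_mul, zero_add]
  norm_cast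

/-- A smooth periodic squared-distance-like function to the lattice translates of `p`. -/
noncomputable def D (p z : C2) : ℝ :=
  ∑ j : Fin 2, (Real.sin (Real.pi * ((z j).re - (p j).re)) ^ 2 +
    Real.sin (Real.pi * ((z j).im - (p j).im)) ^ 2)

theorem D_nonneg (p z : C2) : 0 ≤ D p z := by
  unfold D; positivity

theorem contDiff_coord (j : Fin 2) : ContDiff ℝ ∞ (fun z : C2 => z j) := by
  have : ContDiff ℝ ∞ (fun z : C2 => (EuclideanSpace.proj j : C2 →L[ℂ] ℂ).restrictScalars ℝ z) :=
    ContinuousLinearMap.contDiff _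
  exact this

theorem contDiff_D (p : C2) : ContDiff ℝ ∞ (D p) := by
  unfold D
  have hre : ∀ j : Fin 2, ContDiff ℝ ∞ (fun z : C2 => (z j).re) := fun j =>
    Complex.reCLM.contDiff.comp (contDiff_coord j)
  have him : ∀ j : Fin 2, ContDiff ℝ ∞ (fun z : C2 => (z j).im) := fun j =>
    Complex.imCLM.contDiff.comp (contDiff_coord j)
  refine ContDiff.sum fun j _ => ContDiff.add ?_ ?_
  · exact (Real.contDiff_sin.comp (contDiff_const.mul ((hre j).sub contDiff_const))).pow 2
  · exact (Real.contDiff_sin.comp (contDiff_const.mul ((him j).sub contDiff_const))).pow 2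

theorem sin_sq_add_int (x : ℝ) (n : ℤ) :
    Real.sin (Real.pi * (x + n)) ^ 2 = Real.sin (Real.pi * x) ^ 2 := by
  have : Real.pi * (x + n) = Real.pi * x + n * Real.pi := by ring
  rw [this, Real.sin_add_int_mul_pi]
  rcases Int.even_or_odd n with h | h
  · simp [h.neg_one_zpow]
  · simp [h.neg_one_zpow]

theorem D_periodic (p l : C2) (hl : InLattice l) (z : C2) : D p (z + l) = D p z := by
  unfold D
  refine Finset.sum_congr rfl fun j _ => ?_
  obtain ⟨m, n, h⟩ := hl j
  have h1 : ((z + l) j).re - (p j).re = ((z j).re - (p j).re) + m := by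
    simp [h]; ring
  have h2 : ((z + l) j).im - (p j).im = ((z j).im - (p j).im) + n := by
    simp [h]; ring
  rw [h1, h2, sin_sq_add_int, sin_sq_add_int]

theorem norm_sq_eq (z : C2) : ‖z‖ ^ 2 = ∑ j : Fin 2, ((z j).re ^ 2 + (z j).im ^ 2) := by
  rw [EuclideanSpace.norm_sq_eq]
  refine Finset.sum_congr rfl fun j _ => ?_
  rw [← Complex.normSq_eq_norm_sq, Complex.normSq_apply]; ring

/-- `D p z` is small when `z` is close to `p`. -/
theorem D_le (p z : C2) : D p z ≤ Real.pi ^ 2 * ‖z - p‖ ^ 2 := by
  rw [norm_sq_eq, Finset.mul_sum]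
  unfold D
  refine Finset.sum_le_sum fun j _ => ?_
  have h : ∀ x : ℝ, Real.sin (Real.pi * x) ^ 2 ≤ Real.pi ^ 2 * x ^ 2 := by
    intro x
    rw [← mul_pow]
    exact Real.sin_sq_le_sq
  have h1 := h ((z j).re - (p j).re)
  have h2 := h ((z j).im - (p j).im)
  simp only [PiLp.sub_apply, Complex.sub_re, Complex.sub_im]
  linarith

theorem exists_int_near (x : ℝ) : ∃ n : ℤ, 4 * (x - n) ^ 2 ≤ Real.sin (Real.pi * x) ^ 2 := by
  refine ⟨round x, ?_⟩
  have h := abs_sub_round x
  have : Real.sin (Real.pi * x) ^ 2 = Real.sin (Real.pi * (x - round x)) ^ 2 := by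
    have := sin_sq_add_int (x - round x) (round x)
    simpa using this
  rw [this]
  set y := x - round x
  have h2 : Real.sin (Real.pi * y) ^ 2 = Real.sin (Real.pi * |y|) ^ 2 := by
    rcases abs_cases y with ⟨h, _⟩ | ⟨h, _⟩ <;> rw [h]
    rw [mul_neg, Real.sin_neg]; ring
  rw [h2, ← sq_abs y]
  have h3 : 2 * |y| ≤ Real.sin (Real.pi * |y|) := by
    have := Real.mul_le_sin (x := Real.pi * |y|) (by positivity) (by nlinarith [Real.pi_pos])
    calc 2 * |y| = 2 / Real.pi * (Real.pi * |y|) := by field_simp
      _ ≤ _ := this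
  have h4 : 0 ≤ |y| := abs_nonneg y
  nlinarith

/-- If `D p z` is small then `z` is close to a lattice translate of `p`. -/
theorem exists_lattice_near (p z : C2) : ∃ l, InLattice l ∧ 4 * ‖z - p - l‖ ^ 2 ≤ D p z := by
  choose m hm using fun j : Fin 2 => exists_int_near ((z j).re - (p j).re)
  choose n hn using fun j : Fin 2 => exists_int_near ((z j).im - (p j).im)
  refine ⟨WithLp.toLp 2 (fun j => (m j : ℂ) + (n j : ℂ) * Complex.I), fun j => ⟨m j, n j, by simp⟩, ?_⟩
  rw [norm_sq_eq, Finset.mul_sum]
  unfold D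
  refine Finset.sum_le_sum fun j _ => ?_
  have h1 := hm j
  have h2 := hn j
  simp
  linarith

/-- The bump function, positive exactly where `D p < δ`. -/
noncomputable def bump (p : C2) (δ : ℝ) (z : C2) : ℝ := Real.smoothTransition (δ - D p z)

theorem bump_nonneg (p : C2) (δ : ℝ) (z : C2) : 0 ≤ bump p δ z :=
  Real.smoothTransition.nonneg _

theorem bump_le_one (p : C2) (δ : ℝ) (z : C2) : bump p δ z ≤ 1 :=
  Real.smoothTransition.le_one _

theorem bump_pos_iff (p : C2) (δ : ℝ) (z : C2) : 0 < bump p δ z ↔ D p z < δ := by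
  constructor
  · intro h
    by_contra hc
    have : bump p δ z = 0 := Real.smoothTransition.zero_of_nonpos (by linarith)
    linarith
  · intro h
    exact Real.smoothTransition.pos_of_pos (by linarith)

theorem bump_eq_zero_iff (p : C2) (δ : ℝ) (z : C2) : bump p δ z = 0 ↔ δ ≤ D p z := by
  constructor
  · intro h
    by_contra hc
    have := (bump_pos_iff p δ z).2 (by linarith)
    linarith
  · intro h
    exact Real.smoothTransition.zero_of_nonpos (by linarith)

theorem contDiff_bump (p : C2) (δ : ℝ) : ContDiff ℝ ∞ (bump p δ) :=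
  Real.smoothTransition.contDiff.comp (contDiff_const.sub (contDiff_D p))

theorem bump_periodic (p : C2) (δ : ℝ) (l : C2) (hl : InLattice l) (z : C2) :
    bump p δ (z + l) = bump p δ z := by
  unfold bump; rw [D_periodic p l hl]

/-- The form `bump * kahler`. -/
noncomputable def bumpForm (p : C2) (δ : ℝ) : Form 2 :=
  ⟨fun z => bump p δ z • kahler, (contDiff_bump p δ).smul contDiff_const,
    fun l hl z => by simp only [bump_periodic p δ l hl]⟩

theorem bumpForm_apply (p : C2) (δ : ℝ) (z e : C2) :
    (bumpForm p δ).1 z ![e, Complex.I • e] = bump p δ z * ‖e‖ ^ 2 := by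
  show (bump p δ z • kahler) ![e, Complex.I • e] = _
  rw [ContinuousAlternatingMap.smul_apply, kahler_apply, smul_eq_mul]

theorem tsupport_bumpForm (p : C2) (δ : ℝ) : tsupport (bumpForm p δ).1 ⊆ {z | D p z ≤ δ} := by
  refine closure_minimal ?_ (isClosed_le (contDiff_D p).continuous continuous_const)
  intro z hz
  by_contra hc
  apply hz
  show bump p δ z • kahler = 0
  rw [(bump_eq_zero_iff p δ z).2 (by simp at hc; linarith), zero_smul]

end Pool.Agent.W581.Cyc
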