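import Pool.Agent.W581.Cyc.Param
import Pool.Agent.W581.Cyc.Bump

set_option autoImplicit false

open MeasureTheory Set Topology Filter
open scoped ContDiff NNReal ENNReal

namespace Pool.Agent.W581.Cyc

/-- area measure -/
noncomputable abbrev area : Measure C2 := MeasureTheory.Measure.euclideanHausdorffMeasure 2

theorem heM_image_le {X Y : Type*} [MetricSpace X] [MeasurableSpace X] [BorelSpace X]
    [MetricSpace Y] [MeasurableSpace Y] [BorelSpace Y] {K : ℝ≥0} {f : X → Y} {s : Set X}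
    (h : LipschitzOnWith K f s) :
    (Measure.euclideanHausdorffMeasure 2 : Measure Y) (f '' s) ≤
      (K : ℝ≥0∞) ^ 2 * (Measure.euclideanHausdorffMeasure 2 : Measure X) s := by
  rw [Measure.euclideanHausdorffMeasure_def, Measure.euclideanHausdorffMeasure_def,
    Measure.smul_apply, Measure.smul_apply]
  have := h.hausdorffMeasure_image_le (d := ((2 : ℕ) : ℝ)) (by positivity)
  rw [ENNReal.rpow_natCast] at this
  rw [ENNReal.smul_def, ENNReal.smul_def, smul_eq_mul, smul_eq_mul, mul_left_comm]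
  exact mul_le_mul_right this _

theorem heM_complex : (Measure.euclideanHausdorffMeasure 2 : Measure ℂ) = volume := by
  have := InnerProductSpace.euclideanHausdorffMeasure_eq_volume (V := ℂ)
  rwa [Complex.finrank_real_complex] at this

theorem fderiv_ne_zero_near {W : Set C2} {f : C2 → ℂ} {z : C2} (hz : z ∈ W)
    (hf : AnalyticOnNhd ℂ f W) (hA : fderiv ℂ f z ≠ 0) :
    ∀ᶠ w in 𝓝 z, fderiv ℂ f w ≠ 0 := by
  have : ContinuousAt (fderiv ℂ f) z := (hf z hz).fderiv.continuousAt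
  exact this.eventually_ne hA

theorem regular_near {V : Set C2} {z : C2} (hz : z ∈ regularPoints V) :
    ∀ᶠ w in 𝓝 z, w ∈ V → w ∈ regularPoints V := by
  obtain ⟨hzV, W, hW, hzW, f, hf, hA, hVW⟩ := hz
  filter_upwards [fderiv_ne_zero_near hzW hf hA, hW.mem_nhds hzW] with w hw hwW hwV
  exact ⟨hwV, W, hW, hwW, f, hf, hw, hVW⟩

/-- structure of `V` near a regular point -/
theorem regular_param {V : Set C2} {z : C2} (hz : z ∈ regularPoints V) :
    ∃ (G : C2 →L[ℂ] ℂ) (ψ : ℂ → C2) (N : Set C2) (K : ℝ≥0), IsOpen N ∧ z ∈ N ∧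
      (∀ w ∈ N ∩ V, ψ (G w) = w) ∧ LipschitzOnWith K ψ (G '' (N ∩ V)) ∧
      ψ (G z) = z ∧
      (∀ᶠ t in 𝓝 (G z), DifferentiableAt ℂ ψ t ∧ ψ t ∈ V ∧ G (ψ t) = t) := by
  obtain ⟨hzV, W, hW, hzW, f, hf, hA, hVW⟩ := hz
  have hfz : f z = 0 := by
    have : z ∈ V ∩ W := ⟨hzV, hzW⟩
    rw [hVW] at this; exact this.2
  obtain ⟨G, ψ, N, K, hN, hzN, hNW, h1, h2, h3, h4⟩ := exists_param hW hzW hf hA hfz
  have hmem : ∀ w, w ∈ N ∩ V → w ∈ N ∩ {w | f w = 0} := by
    rintro w ⟨hwN, hwV⟩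
    have : w ∈ V ∩ W := ⟨hwV, hNW hwN⟩
    rw [hVW] at this
    exact ⟨hwN, this.2⟩
  refine ⟨G, ψ, N, K, hN, hzN, fun w hw => h1 w (hmem w hw).1 (hmem w hw).2, ?_, h3, ?_⟩
  · exact h2.mono (image_mono fun w hw => hmem w hw)
  · have hc : ContinuousAt ψ (G z) := h4.self_of_nhds.1.continuousAt
    have h5 : ∀ᶠ t in 𝓝 (G z), ψ t ∈ W := by
      apply hc
      rw [h3]; exact hW.mem_nhds hzW
    filter_upwards [h4, h5] with t ht ht5
    refine ⟨ht.1, ?_, ht.2.2⟩
    have : ψ t ∈ {w ∈ W | f w = 0} := ⟨ht5, ht.2.1⟩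
    rw [← hVW] at this
    exact this.1

theorem area_pos {V : Set C2} {z : C2} (hz : z ∈ regularPoints V) {N' : Set C2} (hN' : N' ∈ 𝓝 z) :
    0 < area (V ∩ N') := by
  obtain ⟨G, ψ, N, K, hN, hzN, h1, h2, h3, h4⟩ := regular_param hz
  have hc : ContinuousAt ψ (G z) := h4.self_of_nhds.1.continuousAt
  have h5 : ∀ᶠ t in 𝓝 (G z), ψ t ∈ N' := by
    apply hc
    rw [h3]; exact hN'
  obtain ⟨ρ, hρ, hball⟩ := Metric.eventually_nhds_iff_ball.1 (h4.and h5)
  have hsub : Metric.ball (G z) ρ ⊆ G '' (V ∩ N') := by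
    intro t ht
    exact ⟨ψ t, ⟨(hball t ht).1.2.1, (hball t ht).2⟩, (hball t ht).1.2.2⟩
  have hL : LipschitzOnWith ‖G‖₊ G (V ∩ N') := G.lipschitz.lipschitzOnWith
  have h6 := heM_image_le hL
  rw [heM_complex] at h6
  have h7 : 0 < volume (Metric.ball (G z) ρ) := Metric.measure_ball_pos _ _ hρ
  have h8 := h7.trans_le ((measure_mono hsub).trans h6)
  by_contra hc
  rw [not_lt, nonpos_iff_eq_zero] at hc
  rw [show (Measure.euclideanHausdorffMeasure 2 : Measure C2) (V ∩ N') = 0 from hc, mul_zero] at h8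
  exact lt_irrefl _ h8

theorem area_lt_top {V : Set C2} {z : C2} (hz : z ∈ regularPoints V) :
    ∃ ρ > 0, area (V ∩ Metric.ball z ρ) < ⊤ := by
  obtain ⟨G, ψ, N, K, hN, hzN, h1, h2, h3, h4⟩ := regular_param hz
  obtain ⟨ρ, hρ, hball⟩ := Metric.isOpen_iff.1 hN z hzN
  refine ⟨ρ, hρ, ?_⟩
  have hsub : V ∩ Metric.ball z ρ ⊆ ψ '' (G '' (V ∩ Metric.ball z ρ)) := by
    rintro w ⟨hwV, hw⟩
    exact ⟨G w, ⟨w, ⟨hwV, hw⟩, rfl⟩, h1 w ⟨hball hw, hwV⟩⟩
  have h5 : LipschitzOnWith K ψ (G '' (V ∩ Metric.ball z ρ)) :=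
    h2.mono (image_mono fun w hw => ⟨hball hw.2, hw.1⟩)
  have h6 := heM_image_le h5
  rw [heM_complex] at h6
  refine ((measure_mono hsub).trans h6).trans_lt ?_
  refine ENNReal.mul_lt_top (ENNReal.pow_lt_top ENNReal.coe_lt_top) ?_
  have h7 : G '' (V ∩ Metric.ball z ρ) ⊆ Metric.closedBall (G z) (‖G‖ * ρ) := by
    rintro _ ⟨w, ⟨_, hw⟩, rfl⟩
    rw [Metric.mem_closedBall, dist_eq_norm, ← map_sub]
    refine (G.le_opNorm _).trans ?_
    gcongr
    rw [← dist_eq_norm]; exact (Metric.mem_ball.1 hw).le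
  exact (measure_mono h7).trans_lt measure_closedBall_lt_top

theorem exists_unitTangent {V : Set C2} {z : C2} (hz : z ∈ regularPoints V) :
    ∃ e, IsUnitTangent V z e := by
  obtain ⟨G, ψ, N, K, hN, hzN, h1, h2, h3, h4⟩ := regular_param hz
  have hd : DifferentiableAt ℂ ψ (G z) := h4.self_of_nhds.1
  set v := deriv ψ (G z)
  have hGv : G v = 1 := by
    have h5 : HasDerivAt (fun t => G (ψ t)) (G v) (G z) := G.hasFDerivAt.comp_hasDerivAt _ hd.hasDerivAt
    have h6 : HasDerivAt (fun t => G (ψ t)) 1 (G z) := by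
      refine (hasDerivAt_id (G z)).congr_of_eventuallyEq ?_
      filter_upwards [h4] with t ht
      exact ht.2.2
    exact h5.unique h6
  have hv : v ≠ 0 := by
    intro h; rw [h, map_zero] at hGv; exact zero_ne_one hGv
  have hvn : (‖v‖ : ℂ) ≠ 0 := by simpa using hv
  refine ⟨(‖v‖ : ℂ)⁻¹ • v, ?_, fun s => ψ (G z + s * (‖v‖ : ℂ)⁻¹), ?_, ?_, ?_⟩
  · rw [norm_smul, norm_inv, Complex.norm_real, norm_norm, inv_mul_cancel₀ (by simpa using hv)]
  · have hc : Tendsto (fun s : ℂ => G z + s * (‖v‖ : ℂ)⁻¹) (𝓝 0) (𝓝 (G z)) := by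
      have : Continuous (fun s : ℂ => G z + s * (‖v‖ : ℂ)⁻¹) := by fun_prop
      have h := this.tendsto 0
      simpa using h
    filter_upwards [hc.eventually h4] with s hs
    refine ⟨?_, hs.2.1⟩
    exact hs.1.comp s (by fun_prop : DifferentiableAt ℂ (fun s : ℂ => G z + s * (‖v‖ : ℂ)⁻¹) s)
  · simp [h3]
  · have h7 : HasDerivAt (fun s : ℂ => G z + s * (‖v‖ : ℂ)⁻¹) ((‖v‖ : ℂ)⁻¹) 0 := by
      have := ((hasDerivAt_id (0 : ℂ)).mul_const ((‖v‖ : ℂ)⁻¹)).const_add (G z)
      simpa using this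
    have h8 : HasDerivAt ψ v (G z + 0 * (‖v‖ : ℂ)⁻¹) := by
      rw [zero_mul, add_zero]; exact hd.hasDerivAt
    exact (h8.scomp (0 : ℂ) h7).deriv

theorem tangentValue_bumpForm {V : Set C2} {z : C2} (hz : z ∈ regularPoints V) (p : C2) (δ : ℝ) :
    tangentValue V (bumpForm p δ).1 z = bump p δ z := by
  unfold tangentValue
  have h := exists_unitTangent hz
  rw [dif_pos h, bumpForm_apply, h.choose_spec.1]
  simp

theorem integrationCurrent_bumpForm (V : Set C2) (hm : MeasurableSet (regularPoints V ∩ unitCube))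
    (p : C2) (δ : ℝ) :
    integrationCurrent V (bumpForm p δ).1 = ∫ z in regularPoints V ∩ unitCube, bump p δ z ∂area := by
  unfold integrationCurrent
  exact setIntegral_congr_fun hm fun z hz => tangentValue_bumpForm hz.1 p δ

theorem measurableSet_unitCube : MeasurableSet unitCube := by
  have hre : ∀ j : Fin 2, Measurable (fun z : C2 => (z j).re) := fun j =>
    (Complex.continuous_re.comp (contDiff_coord j).continuous).measurable
  have him : ∀ j : Fin 2, Measurable (fun z : C2 => (z j).im) := fun j =>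
    (Complex.continuous_im.comp (contDiff_coord j).continuous).measurable
  have : unitCube = ⋂ j : Fin 2, ((fun z : C2 => (z j).re) ⁻¹' Ico 0 1 ∩
      (fun z : C2 => (z j).im) ⁻¹' Ico 0 1) := by
    ext z; simp [unitCube]
  rw [this]
  exact MeasurableSet.iInter fun j => (hre j measurableSet_Ico).inter (him j measurableSet_Ico)

theorem measurableSet_regularPoints {U V : Set C2} (hU : IsOpen U) (hV : IsAnalyticIn U V) :
    MeasurableSet (regularPoints V) := by
  -- V is relatively closed in U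
  have hVm : MeasurableSet V := by
    have : V = U ∩ closure V := by
      apply Subset.antisymm (subset_inter hV.subset subset_closure)
      rintro z ⟨hzU, hz⟩
      obtain ⟨W, hW, hzW, m, f, hf, hVW⟩ := hV.zeros z hzU
      have h1 : ∀ j, f j z = 0 := by
        intro j
        have hc : ContinuousAt (f j) z := (hf j z hzW).continuousAt
        by_contra hne
        have h2 : ∀ᶠ w in 𝓝 z, f j w ≠ 0 := hc.eventually_ne hne
        obtain ⟨w, hw, hwV⟩ := mem_closure_iff_nhds.1 hz _ (h2.and (hW.mem_nhds hzW))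
        have : w ∈ V ∩ W := ⟨hwV, hw.2⟩
        rw [hVW] at this
        exact hw.1 (this.2 j)
      have : z ∈ V ∩ W := by rw [hVW]; exact ⟨hzW, h1⟩
      exact this.1
    rw [this]
    exact hU.measurableSet.inter isClosed_closure.measurableSet
  have : regularPoints V = V ∩ interior {w | w ∈ V → w ∈ regularPoints V} := by
    apply Subset.antisymm
    · intro z hz
      exact ⟨hz.1, mem_interior_iff_mem_nhds.2 (regular_near hz)⟩
    · rintro z ⟨hzV, hz⟩
      exact interior_subset hz hzV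
  rw [this]
  exact hVm.inter isOpen_interior.measurableSet

end Pool.Agent.W581.Cyc
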