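import Pool.Agent.W581.Cyc.Current

set_option autoImplicit false

open MeasureTheory Set Topology Filter intervalIntegral
open scoped ContDiff NNReal ENNReal

namespace Pool.Agent.W581.Cyc

/-- evaluation of a one-form -/
noncomputable def ev1 (β : C2 → C2 [⋀^Fin 1]→L[ℝ] ℝ) (v z : C2) : ℝ := β z ![v]

theorem ev1_add (β : C2 → C2 [⋀^Fin 1]→L[ℝ] ℝ) (v w z : C2) :
    ev1 β (v + w) z = ev1 β v z + ev1 β w z := by
  have h := (β z).map_update_add ![v] 0 v w
  have e : ∀ x : C2, Function.update ![v] (0 : Fin 1) x = ![x] := by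
    intro x; funext i; fin_cases i; simp
  rw [e, e, e] at h
  exact h

theorem ev1_zero (β : C2 → C2 [⋀^Fin 1]→L[ℝ] ℝ) (z : C2) : ev1 β 0 z = 0 := by
  have := ev1_add β 0 0 z
  rw [add_zero] at this
  linarith

theorem contDiff_ev1 (β : Form 1) (v : C2) : ContDiff ℝ ∞ (ev1 β.1 v) := by
  have : ContDiff ℝ ∞ fun z => (ContinuousAlternatingMap.apply ℝ C2 ℝ ![v]) (β.1 z) :=
    (ContinuousAlternatingMap.apply ℝ C2 ℝ ![v]).contDiff.comp β.2.1
  exact this

theorem ev_extDeriv (β : Form 1) (z e : C2) :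
    ev (extDeriv β.1) z e =
      fderiv ℝ (ev1 β.1 (Complex.I • e)) z e - fderiv ℝ (ev1 β.1 e) z (Complex.I • e) := by
  unfold ev
  rw [extDeriv_apply (β.2.1.differentiable (by simp) z)]
  rw [Fin.sum_univ_two]
  have e0 : (0 : Fin 2).removeNth ![e, Complex.I • e] = ![Complex.I • e] := by
    funext i; fin_cases i; rfl
  have e1 : (1 : Fin 2).removeNth ![e, Complex.I • e] = ![e] := by
    funext i; fin_cases i; rfl
  rw [e0, e1]
  simp [sub_eq_add_neg]
  rfl

theorem im2_add (a b a' b' : ℝ) : im2 (a + a') (b + b') = im2 a b + im2 a' b' := by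
  ext j; fin_cases j <;> simp [im2] <;> ring

theorem im2_smul (r a b : ℝ) : im2 (r * a) (r * b) = r • im2 a b := by
  ext j; fin_cases j <;> simp [im2] <;> ring

theorem I_smul_dir (j : Fin 3) :
    Complex.I • dir j = (dir j 0).re • im2 1 0 + (dir j 1).re • im2 0 1 := by
  ext i
  fin_cases i
  · simp [im2]
    rw [← dir_re j 0]; ring
  · simp [im2]
    rw [← dir_re j 1]; ring

theorem hasDerivAt_pt_t (j : Fin 3) (a b t : ℝ) :
    HasDerivAt (fun t => pt j a b t) ((1 / 3 : ℝ) • dir j) t := by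
  unfold pt
  have h : HasDerivAt (fun t : ℝ => t / 3) (1 / 3) t := by
    simpa using (hasDerivAt_id t).div_const 3
  exact (h.smul_const (dir j)).add_const _

theorem hasDerivAt_pt_a (j : Fin 3) (a b t : ℝ) :
    HasDerivAt (fun a => pt j a b t) (im2 1 0) a := by
  have h : (fun a => pt j a b t) = fun a : ℝ => a • im2 1 0 + pt j 0 b t := by
    funext a
    unfold pt
    have : im2 a b = a • im2 1 0 + im2 0 b := by
      rw [← im2_smul, ← im2_add]; simp
    rw [this]; abel
  rw [h]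
  have := ((hasDerivAt_id a).smul_const (im2 1 0)).add_const (pt j 0 b t)
  simpa using this

theorem hasDerivAt_pt_b (j : Fin 3) (a b t : ℝ) :
    HasDerivAt (fun b => pt j a b t) (im2 0 1) b := by
  have h : (fun b => pt j a b t) = fun b : ℝ => b • im2 0 1 + pt j a 0 t := by
    funext b
    unfold pt
    have : im2 a b = b • im2 0 1 + im2 a 0 := by
      rw [← im2_smul, ← im2_add]; simp
    rw [this]; abel
  rw [h]
  have := ((hasDerivAt_id b).smul_const (im2 0 1)).add_const (pt j a 0 t)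
  simpa using this

theorem C3_fderiv {g : C2 → ℝ} (hg : ContDiff ℝ ∞ g) (j : Fin 3) (v : C2) :
    C3 fun a b t => fderiv ℝ g (pt j a b t) v := by
  have h1 : Continuous fun z => fderiv ℝ g z v :=
    (hg.continuous_fderiv (by simp)).clm_apply continuous_const
  exact h1.comp (continuous_pt j)

theorem inLattice_of {l : C2} (h : ∀ j, ∃ m : ℤ, l j = m) : InLattice l := fun j => by
  obtain ⟨m, hm⟩ := h j
  exact ⟨m, 0, by simp [hm]⟩

theorem im2_one_zero : InLattice (im2 1 0) := by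
  intro j
  fin_cases j
  · exact ⟨0, 1, by simp [im2]⟩
  · exact ⟨0, 0, by simp [im2]⟩

theorem im2_zero_one : InLattice (im2 0 1) := by
  intro j
  fin_cases j
  · exact ⟨0, 0, by simp [im2]⟩
  · exact ⟨0, 1, by simp [im2]⟩

theorem pt_a_one (j : Fin 3) (b t : ℝ) : pt j 1 b t = pt j 0 b t + im2 1 0 := by
  unfold pt
  have : im2 1 b = im2 0 b + im2 1 0 := by rw [← im2_add]; simp
  rw [this, add_assoc]

theorem pt_b_one (j : Fin 3) (a t : ℝ) : pt j a 1 t = pt j a 0 t + im2 0 1 := by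
  unfold pt
  have : im2 a 1 = im2 a 0 + im2 0 1 := by rw [← im2_add]; simp
  rw [this, add_assoc]

theorem I3_normal {h : C2 → ℝ} (hh : ContDiff ℝ ∞ h) (hper : ∀ l, InLattice l → ∀ z, h (z + l) = h z)
    (j : Fin 3) : I3 (fun a b t => fderiv ℝ h (pt j a b t) (Complex.I • dir j)) = 0 := by
  have hd : ∀ z, HasFDerivAt h (fderiv ℝ h z) z := fun z =>
    (hh.differentiable (by simp) z).hasFDerivAt
  have e : (fun a b t => fderiv ℝ h (pt j a b t) (Complex.I • dir j)) = fun a b t =>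
      (dir j 0).re * fderiv ℝ h (pt j a b t) (im2 1 0) +
        (dir j 1).re * fderiv ℝ h (pt j a b t) (im2 0 1) := by
    funext a b t
    rw [I_smul_dir, map_add, map_smul, map_smul, smul_eq_mul, smul_eq_mul]
  rw [e, I3_add ((C3_fderiv hh j _).const_mul _) ((C3_fderiv hh j _).const_mul _),
    I3_const_mul, I3_const_mul]
  have h1 : I3 (fun a b t => fderiv ℝ h (pt j a b t) (im2 1 0)) = 0 := by
    refine I3_deriv_outer (H := fun a b t => h (pt j a b t)) (C3_fderiv hh j _) ?_ ?_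
    · intro a b t
      exact (hd _).comp_hasDerivAt a (hasDerivAt_pt_a j a b t)
    · intro b t
      show h (pt j 1 b t) = h (pt j 0 b t)
      rw [pt_a_one, hper _ im2_one_zero]
  have h2 : I3 (fun a b t => fderiv ℝ h (pt j a b t) (im2 0 1)) = 0 := by
    refine I3_deriv_mid (H := fun a b t => h (pt j a b t)) (C3_fderiv hh j _) ?_ ?_
    · intro a b t
      exact (hd _).comp_hasDerivAt b (hasDerivAt_pt_b j a b t)
    · intro a t
      show h (pt j a 1 t) = h (pt j a 0 t)
      rw [pt_b_one, hper _ im2_zero_one]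
  rw [h1, h2]; ring

theorem I3_tangential {g : C2 → ℝ} (hg : ContDiff ℝ ∞ g) (j : Fin 3) :
    I3 (fun a b t => fderiv ℝ g (pt j a b t) (dir j)) =
      ∫ a in (0 : ℝ)..1, ∫ b in (0 : ℝ)..1, 3 * (g (pt j a b 1) - g (pt j a b 0)) := by
  unfold I3
  congr 1; funext a
  congr 1; funext b
  have hd : ∀ z, HasFDerivAt g (fderiv ℝ g z) z := fun z =>
    (hg.differentiable (by simp) z).hasFDerivAt
  have h1 : ∀ t, HasDerivAt (fun t => 3 * g (pt j a b t)) (fderiv ℝ g (pt j a b t) (dir j)) t := by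
    intro t
    have h2 := ((hd _).comp_hasDerivAt t (hasDerivAt_pt_t j a b t)).const_mul 3
    have h3 : 3 * fderiv ℝ g (pt j a b t) ((1 / 3 : ℝ) • dir j) =
        fderiv ℝ g (pt j a b t) (dir j) := by
      rw [map_smul, smul_eq_mul]; ring
    rw [← h3]
    exact h2
  rw [integral_eq_sub_of_hasDerivAt (fun t _ => h1 t)
    ((C3_fderiv hg j (dir j)).inner a b |>.intervalIntegrable _ _)]
  ring

theorem pt_one_sub (j : Fin 3) (a b : ℝ) :
    ∃ l, InLattice l ∧ pt j a b 1 = pt 0 a b 1 + l := by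
  refine ⟨(1 / 3 : ℝ) • dir j - (1 / 3 : ℝ) • dir 0, inLattice_of ?_, by unfold pt; abel⟩
  intro i
  fin_cases j <;> fin_cases i
  · exact ⟨0, by simp⟩
  · exact ⟨0, by simp⟩
  · exact ⟨-1, by simp [dir]; norm_num⟩
  · exact ⟨1, by simp [dir]; norm_num⟩
  · exact ⟨-1, by simp [dir]; norm_num⟩
  · exact ⟨0, by simp [dir]⟩

theorem sum_dir : dir 0 + dir 1 + dir 2 = 0 := by
  ext i
  fin_cases i <;> simp [dir] <;> norm_num

theorem sum_integral_zero {A : Fin 3 → ℝ} {Q : Fin 3 → ℝ → ℝ → ℝ}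
    (hA : ∀ j, A j = ∫ a in (0 : ℝ)..1, ∫ b in (0 : ℝ)..1, Q j a b)
    (hQ : ∀ j, Continuous fun q : ℝ × ℝ => Q j q.1 q.2)
    (hs : ∀ a b, ∑ j, Q j a b = 0) : ∑ j, A j = 0 := by
  have hc1 : ∀ j a, Continuous fun b : ℝ => Q j a b := by
    intro j a
    have : Continuous fun b : ℝ => (a, b) := by fun_prop
    exact (hQ j).comp this
  have hc2 : ∀ j, Continuous fun a : ℝ => ∫ b in (0 : ℝ)..1, Q j a b := fun j =>
    continuous_parametric_intervalIntegral_of_continuous' (f := Q j) (hQ j) 0 1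
  rw [Finset.sum_congr rfl fun j _ => hA j,
    ← intervalIntegral.integral_finsetSum fun j _ => (hc2 j).intervalIntegrable _ _]
  have h2 : ∀ a, ∑ j : Fin 3, ∫ b in (0 : ℝ)..1, Q j a b = 0 := by
    intro a
    rw [← intervalIntegral.integral_finsetSum fun j _ => (hc1 j a).intervalIntegrable _ _]
    simp [hs]
  simp [h2]

theorem I3_ev_extDeriv (β : Form 1) (α : Form 2) (hα : ∀ z, α.1 z = extDeriv β.1 z) (j : Fin 3) :
    I3 (fun a b t => ev α.1 (pt j a b t) (dir j)) =
      ∫ a in (0 : ℝ)..1, ∫ b in (0 : ℝ)..1, 3 * (ev1 β.1 (Complex.I • dir j) (pt j a b 1) -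
        ev1 β.1 (Complex.I • dir j) (pt j a b 0)) := by
  have hper : ∀ v, ∀ l, InLattice l → ∀ z, ev1 β.1 v (z + l) = ev1 β.1 v z := by
    intro v l hl z
    unfold ev1; rw [β.2.2 l hl z]
  rw [← I3_tangential (contDiff_ev1 β _)]
  have e : (fun a b t => ev α.1 (pt j a b t) (dir j)) = fun a b t =>
      fderiv ℝ (ev1 β.1 (Complex.I • dir j)) (pt j a b t) (dir j) +
        (-1) * fderiv ℝ (ev1 β.1 (dir j)) (pt j a b t) (Complex.I • dir j) := by
    funext a b t
    have : ev α.1 (pt j a b t) (dir j) = ev (extDeriv β.1) (pt j a b t) (dir j) := by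
      unfold ev; rw [hα]
    rw [this, ev_extDeriv]; ring
  rw [e, I3_add (C3_fderiv (contDiff_ev1 β _) j _)
    ((C3_fderiv (contDiff_ev1 β _) j _).const_mul _), I3_const_mul,
    I3_normal (contDiff_ev1 β _) (hper _)]
  ring

theorem trop_closed : IsClosedCurrent trop := by
  intro β α hα
  rw [trop_apply]
  have hper : ∀ v, ∀ l, InLattice l → ∀ z, ev1 β.1 v (z + l) = ev1 β.1 v z := by
    intro v l hl z
    unfold ev1; rw [β.2.2 l hl z]
  refine sum_integral_zero (fun j => I3_ev_extDeriv β α hα j) ?_ ?_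
  · intro j
    have hcpt : ∀ (s : ℝ), Continuous fun q : ℝ × ℝ => pt j q.1 q.2 s := by
      intro s
      have : Continuous fun q : ℝ × ℝ => ((q.1, q.2), s) := by fun_prop
      exact (continuous_pt j).comp this
    exact continuous_const.mul (((contDiff_ev1 β _).continuous.comp (hcpt 1)).sub
      ((contDiff_ev1 β _).continuous.comp (hcpt 0)))
  · intro a b
    have e1 : ∀ j, ev1 β.1 (Complex.I • dir j) (pt j a b 1) =
        ev1 β.1 (Complex.I • dir j) (pt 0 a b 1) := by
      intro j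
      obtain ⟨l, hl, he⟩ := pt_one_sub j a b
      rw [he, hper _ l hl]
    have e0 : ∀ j, pt j a b 0 = im2 a b := by
      intro j; unfold pt; simp
    have hs : ∀ z, ev1 β.1 (Complex.I • dir 0) z + ev1 β.1 (Complex.I • dir 1) z +
        ev1 β.1 (Complex.I • dir 2) z = 0 := by
      intro z
      rw [← ev1_add, ← ev1_add, ← smul_add, ← smul_add, sum_dir, smul_zero, ev1_zero]
    rw [Fin.sum_univ_three, e1 0, e1 1, e1 2, e0 0, e0 1, e0 2]
    have s1 := hs (pt 0 a b 1)
    have s2 := hs (im2 a b)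
    linear_combination 3 * s1 - 3 * s2

theorem trop_cycle : IsComplexCycle trop := ⟨trop_isCurrent, trop_closed, trop_cone⟩

end Pool.Agent.W581.Cyc
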