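import Pool.Agent.W581.Cyc.Area

set_option autoImplicit false

open MeasureTheory Set Topology Filter
open scoped ContDiff NNReal ENNReal

namespace Pool.Agent.W581.Cyc

/-- the lattice point with coordinates `n` -/
noncomputable def lat (n : Fin 2 → ℤ × ℤ) : C2 :=
  WithLp.toLp 2 (fun j => ((n j).1 : ℂ) + ((n j).2 : ℂ) * Complex.I)

theorem lat_apply (n : Fin 2 → ℤ × ℤ) (j : Fin 2) :
    lat n j = ((n j).1 : ℂ) + ((n j).2 : ℂ) * Complex.I := rfl

theorem inLattice_lat (n : Fin 2 → ℤ × ℤ) : InLattice (lat n) := fun j => ⟨(n j).1, (n j).2, rfl⟩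

theorem InLattice.exists_lat {l : C2} (hl : InLattice l) : ∃ n, l = lat n := by
  choose a b hab using hl
  refine ⟨fun j => (a j, b j), ?_⟩
  ext j
  rw [hab, lat_apply]

theorem InLattice.neg {l : C2} (hl : InLattice l) : InLattice (-l) := by
  intro j
  obtain ⟨m, n, h⟩ := hl j
  exact ⟨-m, -n, by simp [h]; ring⟩

theorem InLattice.add {l l' : C2} (hl : InLattice l) (hl' : InLattice l') : InLattice (l + l') := by
  intro j
  obtain ⟨m, n, h⟩ := hl j
  obtain ⟨m', n', h'⟩ := hl' j
  exact ⟨m + m', n + n', by simp [h, h']; ring⟩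

theorem lat_re (n : Fin 2 → ℤ × ℤ) (j : Fin 2) : (lat n j).re = (n j).1 := by
  simp [lat_apply]

theorem lat_im (n : Fin 2 → ℤ × ℤ) (j : Fin 2) : (lat n j).im = (n j).2 := by
  simp [lat_apply]

theorem exists_cube (z : C2) : ∃ n, z - lat n ∈ unitCube := by
  refine ⟨fun j => (⌊(z j).re⌋, ⌊(z j).im⌋), fun j => ?_⟩
  simp only [PiLp.sub_apply, Complex.sub_re, Complex.sub_im, lat_re, lat_im, mem_Ico]
  refine ⟨⟨?_, ?_⟩, ?_, ?_⟩
  · linarith [Int.floor_le (z j).re]
  · linarith [Int.lt_floor_add_one (z j).re]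
  · linarith [Int.floor_le (z j).im]
  · linarith [Int.lt_floor_add_one (z j).im]

theorem cube_unique {z : C2} {n m : Fin 2 → ℤ × ℤ} (hn : z - lat n ∈ unitCube)
    (hm : z - lat m ∈ unitCube) : n = m := by
  funext j
  have h1 := hn j
  have h2 := hm j
  simp only [PiLp.sub_apply, Complex.sub_re, Complex.sub_im, lat_re, lat_im, mem_Ico] at h1 h2
  have e1 : ⌊(z j).re⌋ = (n j).1 := Int.floor_eq_iff.2 ⟨by linarith, by linarith⟩
  have e2 : ⌊(z j).re⌋ = (m j).1 := Int.floor_eq_iff.2 ⟨by linarith, by linarith⟩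
  have e3 : ⌊(z j).im⌋ = (n j).2 := Int.floor_eq_iff.2 ⟨by linarith, by linarith⟩
  have e4 : ⌊(z j).im⌋ = (m j).2 := Int.floor_eq_iff.2 ⟨by linarith, by linarith⟩
  exact Prod.ext (e1.symm.trans e2) (e3.symm.trans e4)

theorem area_preimage_sub (A : Set C2) (l : C2) : area ((fun z => z - l) ⁻¹' A) = area A := by
  have h := (IsometryEquiv.subRight l : C2 ≃ᵢ C2).measurePreserving_euclideanHausdorffMeasure 2
  exact h.measure_preimage_equiv (f := (IsometryEquiv.subRight l : C2 ≃ᵢ C2).toHomeomorph.toMeasurableEquiv) A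

theorem area_pos_cube {A : Set C2} (hper : IsPeriodicSet A) (hpos : 0 < area A) :
    0 < area (A ∩ unitCube) := by
  by_contra hc
  rw [not_lt, nonpos_iff_eq_zero] at hc
  have hsub : A ⊆ ⋃ n, (fun z => z - lat n) ⁻¹' (A ∩ unitCube) := by
    intro z hz
    obtain ⟨n, hn⟩ := exists_cube z
    refine mem_iUnion.2 ⟨n, ?_, hn⟩
    show z - lat n ∈ A
    rw [sub_eq_add_neg]
    exact (hper _ (inLattice_lat n).neg z).2 hz
  have : area A ≤ 0 := by
    refine (measure_mono hsub).trans ((measure_iUnion_le _).trans ?_)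
    simp only [area_preimage_sub, hc]
    simp
  exact absurd hpos (not_lt.2 this)

theorem area_cube_le {A T T₀ : Set C2} (hA : IsPeriodicSet A)
    (hAm : MeasurableSet A) (hT₀ : MeasurableSet T₀)
    (hT : ∀ z ∈ T, ∃ n, z - lat n ∈ T₀) : area (A ∩ T ∩ unitCube) ≤ area (A ∩ T₀) := by
  have hcube : ∀ n, MeasurableSet ((fun z : C2 => z + lat n) ⁻¹' unitCube) := fun n =>
    (measurable_add_const (lat n)) measurableSet_unitCube
  have hsub : A ∩ T ∩ unitCube ⊆
      ⋃ n, (fun z => z - lat n) ⁻¹' (A ∩ T₀ ∩ ((fun z => z + lat n) ⁻¹' unitCube)) := by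
    rintro z ⟨⟨hzA, hzT⟩, hzQ⟩
    obtain ⟨n, hn⟩ := hT z hzT
    refine mem_iUnion.2 ⟨n, ⟨?_, hn⟩, ?_⟩
    · show z - lat n ∈ A
      rw [sub_eq_add_neg]
      exact (hA _ (inLattice_lat n).neg z).2 hzA
    · show z - lat n + lat n ∈ unitCube
      rwa [sub_add_cancel]
  calc area (A ∩ T ∩ unitCube)
      ≤ area (⋃ n, (fun z => z - lat n) ⁻¹' (A ∩ T₀ ∩ ((fun z => z + lat n) ⁻¹' unitCube))) :=
        measure_mono hsub
    _ ≤ ∑' n, area ((fun z => z - lat n) ⁻¹' (A ∩ T₀ ∩ ((fun z => z + lat n) ⁻¹' unitCube))) :=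
        measure_iUnion_le _
    _ = ∑' n, area (A ∩ T₀ ∩ ((fun z => z + lat n) ⁻¹' unitCube)) := by
        simp only [area_preimage_sub]
    _ = area (⋃ n, A ∩ T₀ ∩ ((fun z => z + lat n) ⁻¹' unitCube)) := by
        rw [measure_iUnion]
        · intro n m hnm
          refine Set.disjoint_left.2 fun z hz hz' => hnm ?_
          have h1 : z + lat n ∈ unitCube := hz.2
          have h2 : z + lat m ∈ unitCube := hz'.2
          have h3 : z + lat n + lat m - lat m ∈ unitCube := by rwa [add_sub_cancel_right]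
          have h4 : z + lat n + lat m - lat n ∈ unitCube := by
            have : z + lat n + lat m - lat n = z + lat m := by abel
            rwa [this]
          exact cube_unique h4 h3
        · intro n
          exact (hAm.inter hT₀).inter (hcube n)
    _ ≤ area (A ∩ T₀) := measure_mono (iUnion_subset fun n => inter_subset_left)

theorem isPeriodic_regularPoints {V : Set C2} (hV : IsPeriodicSet V) :
    IsPeriodicSet (regularPoints V) := by
  have key : ∀ l, InLattice l → ∀ z, z ∈ regularPoints V → z + l ∈ regularPoints V := by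
    rintro l hl z ⟨hzV, W, hW, hzW, f, hf, hA, hVW⟩
    refine ⟨(hV l hl z).2 hzV, (fun w => w - l) ⁻¹' W, hW.preimage (continuous_sub_right l),
      by simpa using hzW, fun w => f (w - l), ?_, ?_, ?_⟩
    · intro w hw
      have h1 : AnalyticAt ℂ (fun w : C2 => w - l) w := by fun_prop
      have h0 : AnalyticAt ℂ f ((fun w : C2 => w - l) w) := hf (w - l) hw
      exact AnalyticAt.comp (f := fun w : C2 => w - l) (g := f) h0 h1
    · have : fderiv ℂ (fun w => f (w - l)) (z + l) = fderiv ℂ f z := by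
        rw [fderiv_comp_sub]; simp
      rwa [this]
    · ext w
      have h1 : w - l ∈ V ↔ w ∈ V := by
        have := hV (-l) hl.neg w
        rwa [← sub_eq_add_neg] at this
      have h2 : (w - l ∈ V ∩ W) ↔ w - l ∈ {w ∈ W | f w = 0} := by rw [hVW]
      simp only [mem_inter_iff, mem_ofPred_eq, mem_preimage] at h2 ⊢
      rw [← h1]; exact h2
  intro l hl z
  constructor
  · intro h
    have := key (-l) hl.neg _ h
    simpa using this
  · exact key l hl z

theorem isPeriodic_lt (p : C2) (δ : ℝ) : IsPeriodicSet {z | D p z < δ} := by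
  intro l hl z
  simp only [mem_ofPred_eq, D_periodic p l hl]

/-- Integrating a small bump around a regular point gives a positive number. -/
theorem integral_bump_pos {U V : Set C2} (hU : IsOpen U) (hV : IsAnalyticIn U V) {z₀ : C2}
    (hz₀ : z₀ ∈ regularPoints V) : ∃ ρ > 0, ∀ (p : C2) (δ : ℝ),
      (∀ z, D p z < δ → ∃ n, z - lat n ∈ Metric.ball z₀ ρ) → D p z₀ < δ →
      0 < integrationCurrent V (bumpForm p δ).1 := by
  obtain ⟨ρ, hρ, hfin⟩ := area_lt_top hz₀
  refine ⟨ρ, hρ, fun p δ hT hz => ?_⟩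
  have hAm := measurableSet_regularPoints hU hV
  have hAp := isPeriodic_regularPoints hV.periodic
  have hAQ : MeasurableSet (regularPoints V ∩ unitCube) := hAm.inter measurableSet_unitCube
  rw [integrationCurrent_bumpForm V hAQ]
  have hTm : MeasurableSet {z | D p z < δ} :=
    (isOpen_lt (contDiff_D p).continuous continuous_const).measurableSet
  have hle : area (regularPoints V ∩ {z | D p z < δ} ∩ unitCube) < ⊤ := by
    refine (area_cube_le hAp hAm Metric.isOpen_ball.measurableSet hT).trans_lt ?_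
    refine (measure_mono ?_).trans_lt hfin
    exact inter_subset_inter_left _ fun z hz => hz.1
  have hposA : 0 < area (regularPoints V ∩ {z | D p z < δ}) := by
    have h1 : {z | D p z < δ} ∩ {w | w ∈ V → w ∈ regularPoints V} ∈ 𝓝 z₀ :=
      inter_mem ((isOpen_lt (contDiff_D p).continuous continuous_const).mem_nhds hz)
        (regular_near hz₀)
    refine (area_pos hz₀ h1).trans_le (measure_mono ?_)
    rintro w ⟨hwV, hw1, hw2⟩
    exact ⟨hw2 hwV, hw1⟩
  have hper : IsPeriodicSet (regularPoints V ∩ {z | D p z < δ}) := by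
    intro l hl z
    exact and_congr (hAp l hl z) (isPeriodic_lt p δ l hl z)
  have hpos := area_pos_cube hper hposA
  have hsub : regularPoints V ∩ {z | D p z < δ} ∩ unitCube ⊆ regularPoints V ∩ unitCube :=
    fun z hz => ⟨hz.1.1, hz.2⟩
  rw [setIntegral_eq_of_subset_of_forall_sdiff_eq_zero hAQ hsub (f := bump p δ)]
  · have hint : IntegrableOn (bump p δ) (regularPoints V ∩ {z | D p z < δ} ∩ unitCube) area := by
      refine Measure.integrableOn_of_bounded (M := 1) hle.ne
        (contDiff_bump p δ).continuous.aestronglyMeasurable ?_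
      refine Eventually.of_forall fun z => ?_
      rw [Real.norm_eq_abs, abs_of_nonneg (bump_nonneg p δ z)]
      exact bump_le_one p δ z
    rw [setIntegral_pos_iff_support_of_nonneg_ae (Eventually.of_forall fun z => bump_nonneg p δ z)
      hint]
    refine hpos.trans_le (measure_mono ?_)
    intro z hz
    exact ⟨((bump_pos_iff p δ z).2 hz.1.2).ne', hz⟩
  · intro z hz
    rw [bump_eq_zero_iff]
    by_contra hc
    exact hz.2 ⟨⟨hz.1.1, not_le.1 hc⟩, hz.1.2⟩

theorem integrationCurrent_nonneg {U V : Set C2} (hU : IsOpen U) (hV : IsAnalyticIn U V)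
    (p : C2) (δ : ℝ) : 0 ≤ integrationCurrent V (bumpForm p δ).1 := by
  have hAQ : MeasurableSet (regularPoints V ∩ unitCube) :=
    (measurableSet_regularPoints hU hV).inter measurableSet_unitCube
  rw [integrationCurrent_bumpForm V hAQ]
  exact integral_nonneg fun z => bump_nonneg p δ z

theorem integrationCurrent_eq_zero {U V : Set C2} (hU : IsOpen U) (hV : IsAnalyticIn U V)
    (p : C2) (δ : ℝ) (h : ∀ z ∈ regularPoints V, δ ≤ D p z) :
    integrationCurrent V (bumpForm p δ).1 = 0 := by
  have hAQ : MeasurableSet (regularPoints V ∩ unitCube) :=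
    (measurableSet_regularPoints hU hV).inter measurableSet_unitCube
  rw [integrationCurrent_bumpForm V hAQ]
  exact setIntegral_eq_zero_of_forall_eq_zero fun z hz => (bump_eq_zero_iff p δ z).2 (h z hz.1)

end Pool.Agent.W581.Cyc
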