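import Pool.Agent.W581.Cyc.Integral3
import Pool.Agent.W581.Cyc.Lattice

set_option autoImplicit false

open MeasureTheory Set Topology Filter
open scoped ContDiff NNReal ENNReal

namespace Pool.Agent.W581.Cyc

/-- the three directions -/
noncomputable def dir (j : Fin 3) : C2 :=
  ![WithLp.toLp 2 ![2, -1], WithLp.toLp 2 ![-1, 2], WithLp.toLp 2 ![-1, -1]] j

/-- the imaginary point -/
noncomputable def im2 (a b : ℝ) : C2 := WithLp.toLp 2 ![(a : ℂ) * Complex.I, (b : ℂ) * Complex.I]

/-- parametrisation of the tropical curve -/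
noncomputable def pt (j : Fin 3) (a b t : ℝ) : C2 := ((t / 3 : ℝ)) • dir j + im2 a b

/-- `α_z(e, ie)` -/
noncomputable def ev (α : C2 → C2 [⋀^Fin 2]→L[ℝ] ℝ) (z e : C2) : ℝ := α z ![e, Complex.I • e]

theorem dir_re (j : Fin 3) (i : Fin 2) : dir j i = (((dir j i).re : ℝ) : ℂ) := by
  fin_cases j <;> fin_cases i <;> simp [dir]

theorem continuous_im2 : Continuous fun q : ℝ × ℝ => im2 q.1 q.2 := by
  unfold im2
  refine (PiLp.continuous_toLp 2 _).comp ?_
  refine continuous_pi fun i => ?_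
  fin_cases i
  · simp only [Fin.zero_eta, Matrix.cons_val_zero]; fun_prop
  · simp only [Fin.mk_one, Matrix.cons_val_one]; fun_prop

theorem continuous_pt (j : Fin 3) :
    Continuous fun q : (ℝ × ℝ) × ℝ => pt j q.1.1 q.1.2 q.2 := by
  unfold pt
  have h := continuous_im2.comp (continuous_fst (X := ℝ × ℝ) (Y := ℝ))
  have h2 : Continuous fun q : (ℝ × ℝ) × ℝ => ((q.2 / 3 : ℝ)) • dir j := by fun_prop
  exact h2.add h

theorem continuous_ev {α : C2 → C2 [⋀^Fin 2]→L[ℝ] ℝ} (hα : Continuous α) (e : C2) :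
    Continuous fun z => ev α z e := by
  unfold ev
  have : Continuous fun φ : C2 [⋀^Fin 2]→L[ℝ] ℝ => φ ![e, Complex.I • e] :=
    (ContinuousAlternatingMap.apply ℝ C2 ℝ ![e, Complex.I • e]).continuous
  exact this.comp hα

theorem C3_ev {α : C2 → C2 [⋀^Fin 2]→L[ℝ] ℝ} (hα : Continuous α) (j : Fin 3) :
    C3 fun a b t => ev α (pt j a b t) (dir j) :=
  (continuous_ev hα (dir j)).comp (continuous_pt j)

theorem formCont {p : ℕ} (α : Form p) : Continuous α.1 := α.2.1.continuous

/-- the tropical current -/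
noncomputable def trop : Form 2 →ₗ[ℝ] ℝ where
  toFun α := ∑ j, I3 fun a b t => ev α.1 (pt j a b t) (dir j)
  map_add' := by
    intro α β
    rw [← Finset.sum_add_distrib]
    refine Finset.sum_congr rfl fun j _ => ?_
    rw [← I3_add (C3_ev (formCont α) j) (C3_ev (formCont β) j)]
    rfl
  map_smul' := by
    intro r α
    rw [RingHom.id_apply, smul_eq_mul, Finset.mul_sum]
    refine Finset.sum_congr rfl fun j _ => ?_
    rw [← I3_const_mul]
    rfl

theorem trop_apply (α : Form 2) : trop α = ∑ j, I3 fun a b t => ev α.1 (pt j a b t) (dir j) := rfl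

theorem norm_dir_sq (j : Fin 3) : ‖dir j‖ ^ 2 ≤ 5 ∧ 0 < ‖dir j‖ ^ 2 := by
  rw [norm_sq_eq]
  fin_cases j <;> simp [dir] <;> norm_num

theorem abs_ev_le (α : C2 → C2 [⋀^Fin 2]→L[ℝ] ℝ) (z e : C2) : |ev α z e| ≤ ‖α z‖ * ‖e‖ ^ 2 := by
  have h := (α z).le_opNorm ![e, Complex.I • e]
  rw [Fin.prod_univ_two] at h
  simp only [Matrix.cons_val_zero, Matrix.cons_val_one, norm_smul, Complex.norm_I, one_mul] at h
  rw [sq]
  exact h

theorem trop_isCurrent : IsCurrent trop := by
  refine ⟨0, 15, fun α B h => ?_⟩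
  have hB : ∀ z, ‖α.1 z‖ ≤ B := fun z => by
    have := h 0 le_rfl z
    rwa [norm_iteratedFDeriv_zero] at this
  rw [trop_apply]
  refine (Finset.abs_sum_le_sum_abs _ _).trans ?_
  have h1 : ∀ j ∈ Finset.univ, |I3 fun a b t => ev α.1 (pt j a b t) (dir j)| ≤ 5 * B := by
    intro j _
    refine I3_abs_le fun a b t => (abs_ev_le _ _ _).trans ?_
    have := (norm_dir_sq j).1
    have h2 := hB (pt j a b t)
    have h3 := norm_nonneg (α.1 (pt j a b t))
    nlinarith
  refine (Finset.sum_le_sum h1).trans ?_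
  simp
  linarith

/-- the Dirac current -/
noncomputable def diracC (z e : C2) : Form 2 →ₗ[ℝ] ℝ where
  toFun α := ev α.1 z e
  map_add' _ _ := rfl
  map_smul' _ _ := rfl

theorem diracC_mem (z e : C2) : diracC z e ∈ diracCurrents :=
  ⟨z, 1, fun _ => 1, fun _ => e, fun α => by simp [diracC, ev]⟩

theorem trop_cone : (fun α => trop α) ∈ closure
    ((fun (d : Form 2 →ₗ[ℝ] ℝ) (α : Form 2) => d α) ''
      (Submodule.span ℝ≥0 diracCurrents : Set _)) := by
  rw [mem_closure_iff]
  intro o ho hco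
  obtain ⟨I, u, hu, hIu⟩ := isOpen_pi_iff.1 ho _ hco
  -- restriction to the finite set
  let R : (Form 2 →ₗ[ℝ] ℝ) →ₗ[ℝ≥0] (I → ℝ) :=
    { toFun := fun d i => d i
      map_add' := fun _ _ => rfl
      map_smul' := fun _ _ => rfl }
  let K : Submodule ℝ≥0 (I → ℝ) := (Submodule.span ℝ≥0 diracCurrents).map R
  have hconv : Convex ℝ (K.topologicalClosure : Set (I → ℝ)) := by
    intro x hx y hy a b ha hb _
    have h1 := K.topologicalClosure.smul_mem ⟨a, ha⟩ hx
    have h2 := K.topologicalClosure.smul_mem ⟨b, hb⟩ hy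
    exact K.topologicalClosure.add_mem h1 h2
  have hj : ∀ j : Fin 3, (fun i : I => I3 fun a b t => ev i.1.1 (pt j a b t) (dir j)) ∈
      (K.topologicalClosure : Set (I → ℝ)) := by
    intro j
    refine I3_mem hconv K.isClosed_topologicalClosure (fun i => C3_ev (formCont i.1) j) ?_
    intro a b t
    apply K.le_topologicalClosure
    exact ⟨diracC (pt j a b t) (dir j), Submodule.subset_span (diracC_mem _ _), rfl⟩
  have hmem : (fun i : I => trop i) ∈ (K.topologicalClosure : Set (I → ℝ)) := by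
    have h : (fun i : I => trop i) =
        ∑ j : Fin 3, (fun i : I => I3 fun a b t => ev i.1.1 (pt j a b t) (dir j)) := by
      funext i
      rw [Finset.sum_apply, trop_apply]
    rw [h]
    exact K.topologicalClosure.sum_mem fun j _ => hj j
  have hmem' : (fun i : I => trop i) ∈ closure (K : Set (I → ℝ)) := by
    rwa [← Submodule.topologicalClosure_coe]
  have hopen : IsOpen {v : I → ℝ | ∀ i : I, v i ∈ u i} := by
    have : {v : I → ℝ | ∀ i : I, v i ∈ u i} = (univ : Set I).pi fun i => u i := by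
      ext v; simp
    rw [this]
    exact isOpen_set_pi finite_univ fun i _ => (hu i.1 i.2).1
  obtain ⟨v, hv, hvK⟩ := mem_closure_iff.1 hmem' _ hopen fun i => (hu i.1 i.2).2
  obtain ⟨d, hd, rfl⟩ := hvK
  exact ⟨fun α => d α, hIu fun i hi => hv ⟨i, hi⟩, d, hd, rfl⟩

end Pool.Agent.W581.Cyc
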