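import Mathlib

set_option autoImplicit false

open MeasureTheory Set Topology
open scoped ContDiff NNReal

namespace Pool.Agent.W581.Cyc

/-- The complex vector space `ℂ²` with its Hermitian norm. -/
abbrev C2 : Type := EuclideanSpace ℂ (Fin 2)

/-- The lattice `ℤ[i]²` in `ℂ²`. The complex torus `M = ℂ² / ℤ[i]²` is a compact complex manifold of
dimension two; functions, forms and subsets of `M` are written as the `ℤ[i]²`-periodic ones on
`ℂ²`. -/
def InLattice (l : C2) : Prop := ∀ j, ∃ m n : ℤ, l j = m + n * Complex.I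

/-- The subset `A` of `ℂ²` is periodic: it is the preimage of a subset of the torus `M`. -/
def IsPeriodicSet (A : Set C2) : Prop := ∀ l, InLattice l → ∀ z, z + l ∈ A ↔ z ∈ A

/-- The smooth real `p`-forms on the torus `M`: the smooth periodic `p`-forms on `ℂ²`. -/
def Form (p : ℕ) : Submodule ℝ (C2 → C2 [⋀^Fin p]→L[ℝ] ℝ) where
  carrier := {α | ContDiff ℝ ∞ α ∧ ∀ l, InLattice l → ∀ z, α (z + l) = α z}
  add_mem' := by
    rintro a b ⟨ha, ha'⟩ ⟨hb, hb'⟩
    exact ⟨ha.add hb, fun l hl z => by simp [ha' l hl z, hb' l hl z]⟩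
  zero_mem' := ⟨contDiff_const, fun _ _ _ => rfl⟩
  smul_mem' := by
    rintro r a ⟨ha, ha'⟩
    exact ⟨contDiff_const.smul ha, fun l hl z => by simp [ha' l hl z]⟩

/-- The linear functional `c` on the smooth two-forms of the torus is continuous for the
`C^∞` topology, that is, `c` is a `2`-current on `M`. -/
def IsCurrent (c : Form 2 →ₗ[ℝ] ℝ) : Prop :=
  ∃ (N : ℕ) (C : ℝ), ∀ (α : Form 2) (B : ℝ),
    (∀ j ≤ N, ∀ z, ‖iteratedFDeriv ℝ j (α : C2 → C2 [⋀^Fin 2]→L[ℝ] ℝ) z‖ ≤ B) → |c α| ≤ C * B

/-- The current `c` is closed: `c (dβ) = 0` for every smooth one-form `β` on the torus. -/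
def IsClosedCurrent (c : Form 2 →ₗ[ℝ] ℝ) : Prop :=
  ∀ (β : Form 1) (α : Form 2), (∀ z, α.1 z = extDeriv β.1 z) → c α = 0

/-- The Dirac currents `α ↦ α_z(v)` with `z` a point and `v` in the cone `C_z`, the convex cone
generated by the `2`-vectors `e ∧ i e` that represent complex lines with their complex
orientation. -/
def diracCurrents : Set (Form 2 →ₗ[ℝ] ℝ) :=
  {δ | ∃ (z : C2) (m : ℕ) (a : Fin m → ℝ≥0) (e : Fin m → C2),
    ∀ α : Form 2, δ α = ∑ j, a j * α.1 z ![e j, Complex.I • e j]}

/-- `c` is a complex cycle on the torus `M` (with `k = 1`): a closed `2`-current that lies in the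
closure, for the weak topology (pointwise convergence on forms), of the convex cone generated by
the Dirac currents of the complex cone structure. -/
structure IsComplexCycle (c : Form 2 →ₗ[ℝ] ℝ) : Prop where
  current : IsCurrent c
  closed : IsClosedCurrent c
  cone : (fun α => c α) ∈ closure
    ((fun (d : Form 2 →ₗ[ℝ] ℝ) (α : Form 2) => d α) '' (Submodule.span ℝ≥0 diracCurrents : Set _))

/-- `V` is a closed complex analytic subset of the open subset `U` of the torus: near each
point of `U`, it is the set of common zeros of finitely many holomorphic functions. -/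
structure IsAnalyticIn (U V : Set C2) : Prop where
  subset : V ⊆ U
  periodic : IsPeriodicSet V
  zeros : ∀ z ∈ U, ∃ W : Set C2, IsOpen W ∧ z ∈ W ∧ ∃ (m : ℕ) (f : Fin m → C2 → ℂ),
    (∀ j, AnalyticOnNhd ℂ (f j) W) ∧ V ∩ W = {w ∈ W | ∀ j, f j w = 0}

/-- The one-dimensional regular points of `V`: those near which `V` is a complex submanifold of
dimension one, that is, the zero set of a holomorphic function with nonzero differential. -/
def regularPoints (V : Set C2) : Set C2 :=
  {z ∈ V | ∃ W : Set C2, IsOpen W ∧ z ∈ W ∧ ∃ f : C2 → ℂ,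
    AnalyticOnNhd ℂ f W ∧ fderiv ℂ f z ≠ 0 ∧ V ∩ W = {w ∈ W | f w = 0}}

/-- `V` is an irreducible closed analytic subvariety of pure dimension one of the open set `U` of
the torus: a nonempty closed analytic subset whose one-dimensional regular points are dense and
which is not the union of two closed analytic subsets different from it. -/
structure IsIrreducibleCurve (U V : Set C2) : Prop where
  nonempty : V.Nonempty
  analytic : IsAnalyticIn U V
  pure : V ⊆ closure (regularPoints V)
  irreducible : ∀ A B : Set C2, IsAnalyticIn U A → IsAnalyticIn U B → V = A ∪ B → V = A ∨ V = B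

/-- `e` is a unit vector tangent to `V` at `z`: the velocity at `0` of a holomorphic disc
in `V` through `z`. -/
def IsUnitTangent (V : Set C2) (z e : C2) : Prop :=
  ‖e‖ = 1 ∧ ∃ γ : ℂ → C2, (∀ᶠ t in 𝓝 0, DifferentiableAt ℂ γ t ∧ γ t ∈ V) ∧ γ 0 = z ∧
    deriv γ 0 = e

open Classical in
/-- The value of the two-form `α` on the oriented unit `2`-vector `e ∧ i e` of the
tangent line of `V` at a regular point `z`. -/
noncomputable def tangentValue (V : Set C2) (α : C2 → C2 [⋀^Fin 2]→L[ℝ] ℝ) (z : C2) : ℝ :=
  if h : ∃ e, IsUnitTangent V z e then α z ![h.choose, Complex.I • h.choose] else 0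

/-- The half-open unit cube, a fundamental domain of the lattice. -/
def unitCube : Set C2 :=
  {z | ∀ j, (z j).re ∈ Ico (0 : ℝ) 1 ∧ (z j).im ∈ Ico (0 : ℝ) 1}

/-- The current of integration over the regular points of `V ⊆ M`: the integral of `α` over the
oriented surface, with respect to its area (two-dimensional Hausdorff measure). -/
noncomputable def integrationCurrent (V : Set C2) (α : C2 → C2 [⋀^Fin 2]→L[ℝ] ℝ) : ℝ :=
  ∫ z in regularPoints V ∩ unitCube, tangentValue V α z
    ∂(MeasureTheory.Measure.euclideanHausdorffMeasure 2)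

/-- On the open subset `U` of the torus the current `c` is an average of irreducible
subvarieties: for some measure `ν` on some σ-algebra on the set of irreducible closed analytic
curves of `U` one has `c α = ∫ [V] α dν(V)` for every smooth two-form `α` with compact support
in `U`. -/
def IsAverageOn (U : Set C2) (c : Form 2 →ₗ[ℝ] ℝ) : Prop :=
  ∃ (_ : MeasurableSpace {V : Set C2 // IsIrreducibleCurve U V})
    (ν : Measure {V : Set C2 // IsIrreducibleCurve U V}),
    ∀ α : Form 2, tsupport α.1 ⊆ U →
      Integrable (fun V => integrationCurrent V.1 α.1) ν ∧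
        c α = ∫ V, integrationCurrent V.1 α.1 ∂ν

end Pool.Agent.W581.Cyc
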