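import Pool.Agent.W581.Cyc.Main

set_option autoImplicit false

open MeasureTheory Set Topology Filter
open scoped ContDiff NNReal ENNReal

namespace Pool.Agent.W581.Cyc

/-- Analytic continuation along a complex line. -/
theorem line_continuation {U V : Set C2} (hV : IsAnalyticIn U V) (z e : C2) {A : Set ℂ}
    (hA : IsPreconnected A) (hAU : ∀ ζ ∈ A, z + ζ • e ∈ U) {ζ₀ : ℂ} (h0 : ζ₀ ∈ A)
    (hζ : ∀ᶠ ζ in 𝓝 ζ₀, z + ζ • e ∈ V) : ∀ ζ ∈ A, z + ζ • e ∈ V := by
  set K : Set ℂ := {ζ | ∀ᶠ ξ in 𝓝 ζ, z + ξ • e ∈ V} with hK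
  have hKo : IsOpen K := isOpen_setOfPred_eventually_nhds
  have hcl : closure K ∩ A ⊆ K := by
    rintro ζ ⟨hζK, hζA⟩
    by_contra hne
    obtain ⟨W, hW, hzW, m, f, hf, hVW⟩ := hV.zeros _ (hAU ζ hζA)
    have hline : AnalyticAt ℂ (fun ξ : ℂ => z + ξ • e) ζ := by fun_prop
    have hc : ContinuousAt (fun ξ : ℂ => z + ξ • e) ζ := hline.continuousAt
    have hWn : ∀ᶠ ξ in 𝓝 ζ, z + ξ • e ∈ W := hc (hW.mem_nhds hzW)
    have hj : ∀ j, ∀ᶠ ξ in 𝓝 ζ, f j (z + ξ • e) = 0 := by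
      intro j
      have han : AnalyticAt ℂ (fun ξ : ℂ => f j (z + ξ • e)) ζ := by
        have h0 : AnalyticAt ℂ (f j) ((fun ξ : ℂ => z + ξ • e) ζ) := hf j _ hzW
        exact AnalyticAt.comp (f := fun ξ : ℂ => z + ξ • e) (g := f j) h0 hline
      rcases han.eventually_eq_zero_or_eventually_ne_zero with h | h
      · exact h
      · exfalso
        rw [eventually_nhdsWithin_iff] at h
        obtain ⟨ξ, ⟨hξ1, hξ2⟩, hξK⟩ := mem_closure_iff_nhds.1 hζK _ (h.and hWn)
        have hξne : ξ ≠ ζ := fun h => hne (h ▸ hξK)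
        have hξV : z + ξ • e ∈ V := by
          have h' : ∀ᶠ ξ' in 𝓝 ξ, z + ξ' • e ∈ V := hξK
          exact h'.self_of_nhds
        have : z + ξ • e ∈ V ∩ W := ⟨hξV, hξ2⟩
        rw [hVW] at this
        exact hξ1 hξne (this.2 j)
    apply hne
    filter_upwards [hWn, eventually_all.2 hj] with ξ h1 h2
    have : z + ξ • e ∈ {w ∈ W | ∀ j, f j w = 0} := ⟨h1, h2⟩
    rw [← hVW] at this
    exact this.1
  have hsub := hA.subset_of_closure_inter_subset hKo ⟨ζ₀, h0, hζ⟩ hcl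
  intro ζ hζA
  have h' : ∀ᶠ ξ in 𝓝 ζ, z + ξ • e ∈ V := hsub hζA
  exact h'.self_of_nhds

theorem not_mem_nhds_re (w : ℂ) : {v : ℂ | v.re = 0} ∉ 𝓝 w := by
  intro h
  obtain ⟨ε, hε, hb⟩ := Metric.mem_nhds_iff.1 h
  have hw : w.re = 0 := hb (Metric.mem_ball_self hε)
  have h1 : w + (ε / 2 : ℝ) ∈ Metric.ball w ε := by
    rw [Metric.mem_ball, dist_eq_norm, add_sub_cancel_left, Complex.norm_real, Real.norm_eq_abs,
      abs_of_pos (by linarith)]
    linarith
  have h2 : (w + (ε / 2 : ℝ)).re = 0 := hb h1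
  simp [hw] at h2
  linarith

/-- A curve germ in the real hyperplane contains a piece of the complex line. -/
theorem germ_line {V : Set C2} (G : C2 →L[ℂ] ℂ) {ψ : ℂ → C2} {t₀ : ℂ}
    (h : ∀ᶠ t in 𝓝 t₀, DifferentiableAt ℂ ψ t ∧ ψ t ∈ V ∧ G (ψ t) = t)
    (hre : ∀ᶠ t in 𝓝 t₀, (ψ t 0 + 2 * ψ t 1).re = 0) :
    ∀ᶠ ζ : ℂ in 𝓝 0, ψ t₀ + ζ • dir 0 ∈ V := by
  have hψ : AnalyticAt ℂ ψ t₀ :=
    Complex.analyticAt_iff_eventually_differentiableAt.2 (h.mono fun t ht => ht.1)
  have hcoord : ∀ i : Fin 2, AnalyticAt ℂ (fun t => ψ t i) t₀ := by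
    intro i
    exact ((EuclideanSpace.proj i : C2 →L[ℂ] ℂ).analyticAt _).comp hψ
  have hℓ : AnalyticAt ℂ (fun t => ψ t 0 + 2 * ψ t 1) t₀ :=
    (hcoord 0).add (analyticAt_const.mul (hcoord 1))
  have hconst : ∀ᶠ t in 𝓝 t₀, ψ t 0 + 2 * ψ t 1 = ψ t₀ 0 + 2 * ψ t₀ 1 := by
    rcases hℓ.eventually_constant_or_nhds_le_map_nhds with h1 | h1
    · exact h1
    · exfalso
      exact not_mem_nhds_re _ (h1 hre)
  set χ : ℂ → ℂ := fun t => ψ t₀ 1 - ψ t 1 with hχ
  have hχa : AnalyticAt ℂ χ t₀ := analyticAt_const.sub (hcoord 1)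
  have hψχ : ∀ᶠ t in 𝓝 t₀, ψ t = ψ t₀ + χ t • dir 0 := by
    filter_upwards [hconst] with t ht
    ext i
    fin_cases i
    · simp [dir, hχ]
      linear_combination ht
    · simp [dir, hχ]
  rcases hχa.eventually_constant_or_nhds_le_map_nhds with h1 | h1
  · exfalso
    have h2 : ∀ᶠ t in 𝓝 t₀, t = t₀ := by
      filter_upwards [h1, hψχ, h] with t ht1 ht2 ht3
      have e : ψ t = ψ t₀ := by
        rw [ht2, ht1]; simp [hχ]
      rw [← ht3.2.2, e, h.self_of_nhds.2.2]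
    have h3 : {t₀} ∈ 𝓝 t₀ := h2
    rw [Metric.mem_nhds_iff] at h3
    obtain ⟨ε, hε, hb⟩ := h3
    have h4 : t₀ + (ε / 2 : ℝ) ∈ Metric.ball t₀ ε := by
      rw [Metric.mem_ball, dist_eq_norm, add_sub_cancel_left, Complex.norm_real, Real.norm_eq_abs,
        abs_of_pos (by linarith)]
      linarith
    have h5 := hb h4
    simp at h5
    linarith
  · have h0 : χ t₀ = 0 := by simp [hχ]
    rw [h0] at h1
    apply h1
    show ∀ᶠ t in 𝓝 t₀, ψ t₀ + χ t • dir 0 ∈ V
    filter_upwards [hψχ, h] with t ht1 ht2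
    rw [← ht1]; exact ht2.2.1

theorem norm_dir0 : ‖dir 0‖ < 3 := by
  have h := (norm_dir_sq 0).1
  nlinarith [norm_nonneg (dir 0)]

/-- Every curve that avoids the complement of the support has no point near the edge. -/
theorem no_curve {U V : Set C2} {r s : ℝ} (hU : IsOpen U) (hr : Metric.ball 0 r ⊆ U)
    (hs : 0 < s) (hs1 : s ≤ 1 / 100) (hsr : 10 * s ≤ r) (hV : IsAnalyticIn U V)
    (hpure : V ⊆ closure (regularPoints V))
    (hfree : ∀ w ∈ regularPoints V, ¬ ∃ ρ > 0, Metric.ball w ρ ⊆ U ∧ Disjoint (Metric.ball w ρ) S)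
    {z : C2} (hz : z ∈ regularPoints V) (hzp : ‖z - s • dir 0‖ < s / 10) : False := by
  have hd := norm_dir0
  have hd0 := norm_nonneg (dir 0)
  -- all regular points near `z` have `ℓ` imaginary
  have hball : ∀ w : C2, ‖w - s • dir 0‖ < s / 10 → w ∈ Metric.ball (0 : C2) r := by
    intro w hw
    rw [mem_ball_zero_iff]
    calc ‖w‖ = ‖(w - s • dir 0) + s • dir 0‖ := by rw [sub_add_cancel]
      _ ≤ ‖w - s • dir 0‖ + ‖s • dir 0‖ := norm_add_le _ _
      _ < r := by
        rw [norm_smul, Real.norm_eq_abs, abs_of_pos hs]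
        nlinarith
  have hre : ∀ w ∈ regularPoints V, ‖w - s • dir 0‖ < s / 10 → (w 0 + 2 * w 1).re = 0 := by
    intro w hw hwp
    by_contra hne
    apply hfree w hw
    have ho : IsOpen {v : C2 | ‖v - s • dir 0‖ < s / 10 ∧ (v 0 + 2 * v 1).re ≠ 0} := by
      have ho1 : IsOpen {v : C2 | ‖v - s • dir 0‖ < s / 10} :=
        isOpen_lt (by fun_prop) continuous_const
      have hcr : Continuous fun v : C2 => (v 0 + 2 * v 1).re :=
        Complex.continuous_re.comp ((contDiff_coord 0).continuous.add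
          (continuous_const.mul (contDiff_coord 1).continuous))
      exact ho1.inter (isOpen_ne_fun hcr continuous_const)
    obtain ⟨ρ, hρ, hsub⟩ := Metric.isOpen_iff.1 ho w ⟨hwp, hne⟩
    refine ⟨ρ, hρ, fun v hv => hr (hball v (hsub hv).1), ?_⟩
    rw [Set.disjoint_left]
    intro v hv hvS
    exact (hsub hv).2 (near_p hs hs1 (hsub hv).1 hvS)
  obtain ⟨G, ψ, N, K, hN, hzN, h1, h2, h3, h4⟩ := regular_param hz
  have hc : ContinuousAt ψ (G z) := h4.self_of_nhds.1.continuousAt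
  have h5 : ∀ᶠ t in 𝓝 (G z), (ψ t 0 + 2 * ψ t 1).re = 0 := by
    have h6 : ∀ᶠ w in 𝓝 (ψ (G z)), (w ∈ V → w ∈ regularPoints V) ∧ ‖w - s • dir 0‖ < s / 10 := by
      rw [h3]
      have ho : IsOpen {w : C2 | ‖w - s • dir 0‖ < s / 10} :=
        isOpen_lt (by fun_prop) continuous_const
      exact (regular_near hz).and (ho.mem_nhds hzp)
    filter_upwards [hc.eventually h6, h4] with t ht ht'
    exact hre _ (ht.1 ht'.2.1) ht.2
  have hline := germ_line G h4 h5
  rw [h3] at hline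
  -- the line through z
  set A : Set ℂ := {ζ | z + ζ • dir 0 ∈ Metric.ball (0 : C2) r} with hA
  have hAc : Convex ℝ A := by
    intro x hx y hy a b ha hb hab
    have := convex_ball (0 : C2) r hx hy ha hb hab
    have e : z + (a • x + b • y) • dir 0 = a • (z + x • dir 0) + b • (z + y • dir 0) := by
      have hz' : z = a • z + b • z := by rw [← add_smul, hab, one_smul]
      conv_lhs => rw [hz']
      rw [add_smul, smul_add, smul_add, smul_assoc, smul_assoc]
      abel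
    show z + (a • x + b • y) • dir 0 ∈ Metric.ball (0 : C2) r
    rw [e]; exact this
  have hz0 : (0 : ℂ) ∈ A := by
    show z + (0 : ℂ) • dir 0 ∈ Metric.ball (0 : C2) r
    rw [zero_smul, add_zero]; exact hball z hzp
  have hcont := line_continuation hV z (dir 0) hAc.isPreconnected (fun ζ hζ => hr hζ) hz0 hline
  -- the point beyond the vertex
  have e1 : z + ((-2 * s : ℝ) : ℂ) • dir 0 + s • dir 0 = z - s • dir 0 := by
    rw [Complex.coe_smul]
    module
  have hq : ‖z + ((-2 * s : ℝ) : ℂ) • dir 0 + s • dir 0‖ < s / 10 := by rw [e1]; exact hzp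
  have hmem : ((-2 * s : ℝ) : ℂ) ∈ A := by
    show z + ((-2 * s : ℝ) : ℂ) • dir 0 ∈ Metric.ball (0 : C2) r
    rw [mem_ball_zero_iff]
    calc ‖z + ((-2 * s : ℝ) : ℂ) • dir 0‖
        = ‖(z + ((-2 * s : ℝ) : ℂ) • dir 0 + s • dir 0) - s • dir 0‖ := by rw [add_sub_cancel_right]
      _ ≤ ‖z + ((-2 * s : ℝ) : ℂ) • dir 0 + s • dir 0‖ + ‖s • dir 0‖ := norm_sub_le _ _
      _ < r := by
        rw [norm_smul, Real.norm_eq_abs, abs_of_pos hs]
        nlinarith
  have hqV := hcont _ hmem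
  set q := z + ((-2 * s : ℝ) : ℂ) • dir 0 with hqdef
  have hqcl := hpure hqV
  obtain ⟨w, hw, hwreg⟩ := mem_closure_iff_nhds.1 hqcl {v | ‖v + s • dir 0‖ < 3 * s / 10}
    ((isOpen_lt (by fun_prop) continuous_const).mem_nhds (by
      show ‖q + s • dir 0‖ < 3 * s / 10
      linarith))
  apply hfree w hwreg
  obtain ⟨ρ, hρ, hsub⟩ := Metric.isOpen_iff.1
    (isOpen_lt (by fun_prop) continuous_const : IsOpen {v : C2 | ‖v + s • dir 0‖ < 3 * s / 10}) w hw
  refine ⟨ρ, hρ, fun v hv => hr ?_, ?_⟩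
  · have hv' : ‖v + s • dir 0‖ < 3 * s / 10 := hsub hv
    rw [mem_ball_zero_iff]
    calc ‖v‖ = ‖(v + s • dir 0) - s • dir 0‖ := by rw [add_sub_cancel_right]
      _ ≤ ‖v + s • dir 0‖ + ‖s • dir 0‖ := norm_sub_le _ _
      _ < r := by
        rw [norm_smul, Real.norm_eq_abs, abs_of_pos hs]
        nlinarith
  · rw [Set.disjoint_left]
    intro v hv
    exact near_q hs hs1 (hsub hv)

theorem not_average {U : Set C2} (hU : IsOpen U) (hUp : IsPeriodicSet U) (h0 : (0 : C2) ∈ U) :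
    ¬ IsAverageOn U trop := by
  rintro ⟨_, ν, hν⟩
  obtain ⟨r, hr0, hr⟩ := Metric.isOpen_iff.1 hU 0 h0
  -- almost every curve is free
  let P : ℕ → ℕ → Prop := fun k n =>
    ({z | D (TopologicalSpace.denseSeq C2 k) z ≤ 1 / (n + 1 : ℝ)} ⊆ U ∧
      ∀ z ∈ S, 1 / (n + 1 : ℝ) ≤ D (TopologicalSpace.denseSeq C2 k) z)
  have hae : ∀ᵐ V ∂ν, ∀ k n, P k n →
      integrationCurrent V.1 (bumpForm (TopologicalSpace.denseSeq C2 k) (1 / (n + 1 : ℝ))).1 = 0 := by
    rw [ae_all_iff]; intro k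
    rw [ae_all_iff]; intro n
    by_cases hP : P k n
    · obtain ⟨hi, he⟩ := hν (bumpForm (TopologicalSpace.denseSeq C2 k) (1 / (n + 1 : ℝ)))
        ((tsupport_bumpForm _ _).trans hP.1)
      rw [trop_bump_zero _ _ hP.2] at he
      have := (integral_eq_zero_iff_of_nonneg
        (fun V => integrationCurrent_nonneg hU V.2.analytic _ _) hi).1 he.symm
      filter_upwards [this] with V hV _
      exact hV
    · exact Eventually.of_forall fun V h => absurd h hP
  have hfree : ∀ᵐ V ∂ν, ∀ w ∈ regularPoints V.1,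
      ¬ ∃ ρ > 0, Metric.ball w ρ ⊆ U ∧ Disjoint (Metric.ball w ρ) S := by
    filter_upwards [hae] with V hV w hw
    rintro ⟨ρ₁, hρ₁, hbU, hbS⟩
    obtain ⟨ρ, hρ, hint⟩ := integral_bump_pos hU V.2.analytic hw
    set ρ' := min ρ ρ₁ with hρ'
    have hρ'0 : 0 < ρ' := lt_min hρ hρ₁
    obtain ⟨n, hn⟩ := exists_nat_one_div_lt (show 0 < ρ' ^ 2 by positivity)
    set δ : ℝ := 1 / (n + 1 : ℝ) with hδ
    have hδ0 : 0 < δ := by positivity
    -- a dense point close to w
    have hη : 0 < min (ρ' / 2) (Real.sqrt δ / 4) := by positivity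
    obtain ⟨p, ⟨k, rfl⟩, hpk⟩ : ∃ p ∈ range (TopologicalSpace.denseSeq C2),
        dist w p < min (ρ' / 2) (Real.sqrt δ / 4) := by
      obtain ⟨k, hk⟩ := (TopologicalSpace.denseRange_denseSeq C2).exists_dist_lt w hη
      exact ⟨_, ⟨k, rfl⟩, hk⟩
    set p := TopologicalSpace.denseSeq C2 k
    have hp1 : ‖w - p‖ < ρ' / 2 := by rw [← dist_eq_norm]; exact hpk.trans_le (min_le_left _ _)
    have hp2 : ‖w - p‖ < Real.sqrt δ / 4 := by
      rw [← dist_eq_norm]; exact hpk.trans_le (min_le_right _ _)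
    have hDw : D p w < δ := by
      have h1 := D_le p w
      have h2 : ‖w - p‖ ^ 2 < δ / 16 := by
        have h3 : ‖w - p‖ ^ 2 < (Real.sqrt δ / 4) ^ 2 := by
          apply pow_lt_pow_left₀ hp2 (norm_nonneg _) (by norm_num)
        rw [div_pow, Real.sq_sqrt hδ0.le] at h3
        linarith
      have h4 : Real.pi ^ 2 < 16 := by nlinarith [Real.pi_lt_four, Real.pi_pos]
      have h5 : 0 ≤ ‖w - p‖ ^ 2 := sq_nonneg _
      nlinarith [sq_nonneg Real.pi]
    have hnear : ∀ z, D p z ≤ δ → ∃ l, InLattice l ∧ z - l ∈ Metric.ball w ρ' := by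
      intro z hz
      obtain ⟨l, hl, hle⟩ := exists_lattice_near p z
      refine ⟨l, hl, ?_⟩
      have h1 : ‖z - p - l‖ < ρ' / 2 := by
        have : ‖z - p - l‖ ^ 2 < (ρ' / 2) ^ 2 := by
          have : (ρ' / 2) ^ 2 = ρ' ^ 2 / 4 := by ring
          rw [this]; linarith
        exact lt_of_pow_lt_pow_left₀ 2 (by positivity) this
      rw [Metric.mem_ball, dist_eq_norm]
      calc ‖z - l - w‖ = ‖(z - p - l) - (w - p)‖ := by congr 1; abel
        _ ≤ ‖z - p - l‖ + ‖w - p‖ := norm_sub_le _ _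
        _ < ρ' := by linarith
    have hPkn : P k n := by
      constructor
      · intro z hz
        obtain ⟨l, hl, hzl⟩ := hnear z hz
        have h1 : z - l ∈ U := hbU (Metric.ball_subset_ball (min_le_right _ _) hzl)
        have := hUp l hl (z - l)
        rw [sub_add_cancel] at this
        exact this.2 h1
      · intro z hzS
        by_contra hlt
        obtain ⟨l, hl, hzl⟩ := hnear z (not_le.1 hlt).le
        have h1 : z - l ∈ S := by
          rw [sub_eq_add_neg]; exact S_add hl.neg hzS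
        exact Set.disjoint_left.1 hbS (Metric.ball_subset_ball (min_le_right _ _) hzl) h1
    have hzero := hV k n hPkn
    have hpos := hint p δ (fun z hz => by
      obtain ⟨l, hl, hzl⟩ := hnear z hz.le
      obtain ⟨m, rfl⟩ := hl.exists_lat
      exact ⟨m, Metric.ball_subset_ball (min_le_left _ _) hzl⟩) hDw
    exact hpos.ne' hzero
  -- the bump at the edge
  set s : ℝ := min (1 / 100) (r / 10) with hs
  have hs0 : 0 < s := by positivity
  have hs1 : s ≤ 1 / 100 := min_le_left _ _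
  have hsr : 10 * s ≤ r := by
    have := min_le_right (1 / 100 : ℝ) (r / 10)
    linarith
  set p : C2 := s • dir 0 with hp
  set δ : ℝ := (s / 10) ^ 2 with hδ
  have hδ0 : 0 < δ := by positivity
  have hnear : ∀ z, D p z ≤ δ → ∃ l, InLattice l ∧ ‖z - l - p‖ < s / 10 := by
    intro z hz
    obtain ⟨l, hl, hle⟩ := exists_lattice_near p z
    refine ⟨l, hl, ?_⟩
    have h1 : ‖z - p - l‖ < s / 10 := by
      have : ‖z - p - l‖ ^ 2 < (s / 10) ^ 2 := by
        nlinarith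
      exact lt_of_pow_lt_pow_left₀ 2 (by positivity) this
    have : z - l - p = z - p - l := by abel
    rwa [this]
  have hsupp : tsupport (bumpForm p δ).1 ⊆ U := by
    intro z hz
    obtain ⟨l, hl, hzl⟩ := hnear z (tsupport_bumpForm p δ hz)
    have h1 : z - l ∈ U := by
      apply hr
      rw [mem_ball_zero_iff]
      calc ‖z - l‖ = ‖(z - l - p) + p‖ := by rw [sub_add_cancel]
        _ ≤ ‖z - l - p‖ + ‖p‖ := norm_add_le _ _
        _ < r := by
          rw [hp, norm_smul, Real.norm_eq_abs, abs_of_pos hs0]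
          nlinarith [norm_dir0, norm_nonneg (dir 0)]
    have := hUp l hl (z - l)
    rw [sub_add_cancel] at this
    exact this.2 h1
  obtain ⟨hi, he⟩ := hν (bumpForm p δ) hsupp
  have hpos : 0 < trop (bumpForm p δ) := by
    refine trop_bump_pos p δ 0 (t₀ := 3 * s) ⟨by linarith, by linarith⟩ ?_
    have : pt 0 0 0 (3 * s) = p := by
      have h1 : im2 0 0 = 0 := by ext i; fin_cases i <;> simp [im2]
      unfold pt
      rw [h1, add_zero, hp]
      congr 1; ring
    rw [this]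
    have : D p p ≤ 0 := by simpa using D_le p p
    linarith
  have hnz : ¬ ∀ᵐ V ∂ν, integrationCurrent V.1 (bumpForm p δ).1 = 0 := by
    intro h
    have : ∫ V, integrationCurrent V.1 (bumpForm p δ).1 ∂ν = 0 := by
      rw [integral_congr_ae (g := fun _ => 0) h]; simp
    rw [← he] at this
    exact hpos.ne' this
  obtain ⟨V, hVne, hVfree⟩ : ∃ V : {V : Set C2 // IsIrreducibleCurve U V},
      integrationCurrent V.1 (bumpForm p δ).1 ≠ 0 ∧ ∀ w ∈ regularPoints V.1,
      ¬ ∃ ρ > 0, Metric.ball w ρ ⊆ U ∧ Disjoint (Metric.ball w ρ) S := by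
    by_contra hcon
    push Not at hcon
    apply hnz
    filter_upwards [hfree] with V hV
    by_contra hne
    obtain ⟨w, hw, hρ⟩ := hcon V hne
    exact hV w hw hρ
  obtain ⟨z, hz, hzD⟩ : ∃ z ∈ regularPoints V.1, D p z < δ := by
    by_contra hcon
    push Not at hcon
    exact hVne (integrationCurrent_eq_zero hU V.2.analytic p δ hcon)
  obtain ⟨l, hl, hzl⟩ := hnear z hzD.le
  have hz' : z - l ∈ regularPoints V.1 := by
    rw [sub_eq_add_neg]
    exact (isPeriodic_regularPoints V.2.analytic.periodic (-l) hl.neg z).2 hz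
  exact no_curve hU hr hs0 hs1 hsr V.2.analytic V.2.pure hVfree hz' hzl

/-- The answer. -/
theorem main : ∃ c : Form 2 →ₗ[ℝ] ℝ, IsComplexCycle c ∧ ∃ x : C2, ∀ U : Set C2,
    IsOpen U → IsPeriodicSet U → x ∈ U → ¬ IsAverageOn U c :=
  ⟨trop, trop_cycle, 0, fun _ hU hUp h0 => not_average hU hUp h0⟩

end Pool.Agent.W581.Cyc
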