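import Mathlib

set_option autoImplicit false

open MeasureTheory Set Topology Filter intervalIntegral

namespace Pool.Agent.W581.Cyc

/-- iterated integral over the unit cube -/
noncomputable def I3 (F : ℝ → ℝ → ℝ → ℝ) : ℝ :=
  ∫ a in (0 : ℝ)..1, ∫ b in (0 : ℝ)..1, ∫ t in (0 : ℝ)..1, F a b t

/-- joint continuity -/
def C3 (F : ℝ → ℝ → ℝ → ℝ) : Prop := Continuous fun q : (ℝ × ℝ) × ℝ => F q.1.1 q.1.2 q.2

theorem C3.inner {F : ℝ → ℝ → ℝ → ℝ} (h : C3 F) (a b : ℝ) : Continuous (F a b) := by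
  have : Continuous fun t : ℝ => ((a, b), t) := by fun_prop
  exact h.comp this

theorem C3.mid' {F : ℝ → ℝ → ℝ → ℝ} (h : C3 F) :
    Continuous fun q : ℝ × ℝ => ∫ t in (0 : ℝ)..1, F q.1 q.2 t :=
  continuous_parametric_intervalIntegral_of_continuous' (f := fun q : ℝ × ℝ => F q.1 q.2) h 0 1

theorem C3.mid {F : ℝ → ℝ → ℝ → ℝ} (h : C3 F) (a : ℝ) :
    Continuous fun b : ℝ => ∫ t in (0 : ℝ)..1, F a b t := by
  have : Continuous fun b : ℝ => (a, b) := by fun_prop
  exact h.mid'.comp this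

theorem C3.outer {F : ℝ → ℝ → ℝ → ℝ} (h : C3 F) :
    Continuous fun a : ℝ => ∫ b in (0 : ℝ)..1, ∫ t in (0 : ℝ)..1, F a b t :=
  continuous_parametric_intervalIntegral_of_continuous'
    (f := fun a b => ∫ t in (0 : ℝ)..1, F a b t) h.mid' 0 1

theorem C3.add {F G : ℝ → ℝ → ℝ → ℝ} (hF : C3 F) (hG : C3 G) :
    C3 fun a b t => F a b t + G a b t := Continuous.add hF hG

theorem C3.const_mul {F : ℝ → ℝ → ℝ → ℝ} (hF : C3 F) (r : ℝ) :
    C3 fun a b t => r * F a b t := Continuous.mul continuous_const hF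

theorem I3_add {F G : ℝ → ℝ → ℝ → ℝ} (hF : C3 F) (hG : C3 G) :
    I3 (fun a b t => F a b t + G a b t) = I3 F + I3 G := by
  unfold I3
  rw [← integral_add (hF.outer.intervalIntegrable _ _) (hG.outer.intervalIntegrable _ _)]
  congr 1; funext a
  rw [← integral_add ((hF.mid a).intervalIntegrable _ _) ((hG.mid a).intervalIntegrable _ _)]
  congr 1; funext b
  rw [← integral_add ((hF.inner a b).intervalIntegrable _ _)
    ((hG.inner a b).intervalIntegrable _ _)]

theorem I3_const_mul (F : ℝ → ℝ → ℝ → ℝ) (r : ℝ) :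
    I3 (fun a b t => r * F a b t) = r * I3 F := by
  unfold I3
  simp only [intervalIntegral.integral_const_mul]

theorem I3_nonneg {F : ℝ → ℝ → ℝ → ℝ} (h : ∀ a b t, 0 ≤ F a b t) : 0 ≤ I3 F := by
  unfold I3
  refine integral_nonneg (by norm_num) fun a _ => integral_nonneg (by norm_num) fun b _ =>
    integral_nonneg (by norm_num) fun t _ => h a b t

theorem I3_pos {F : ℝ → ℝ → ℝ → ℝ} (hF : C3 F) (h : ∀ a b t, 0 ≤ F a b t) {a₀ b₀ t₀ : ℝ}
    (ha : a₀ ∈ Icc (0 : ℝ) 1) (hb : b₀ ∈ Icc (0 : ℝ) 1) (ht : t₀ ∈ Icc (0 : ℝ) 1)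
    (hpos : 0 < F a₀ b₀ t₀) : 0 < I3 F := by
  unfold I3
  refine integral_pos (by norm_num) hF.outer.continuousOn (fun a _ => ?_) ⟨a₀, ha, ?_⟩
  · exact integral_nonneg (by norm_num) fun b _ => integral_nonneg (by norm_num) fun t _ => h a b t
  refine integral_pos (by norm_num) (hF.mid a₀).continuousOn (fun b _ => ?_) ⟨b₀, hb, ?_⟩
  · exact integral_nonneg (by norm_num) fun t _ => h a₀ b t
  exact integral_pos (by norm_num) (hF.inner a₀ b₀).continuousOn (fun t _ => h a₀ b₀ t)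
    ⟨t₀, ht, hpos⟩

theorem I3_eq_zero {F : ℝ → ℝ → ℝ → ℝ} (h : ∀ a b, ∀ t ∈ Icc (0 : ℝ) 1, F a b t = 0) :
    I3 F = 0 := by
  unfold I3
  have : ∀ a b, ∫ t in (0 : ℝ)..1, F a b t = 0 := by
    intro a b
    rw [integral_congr (g := fun _ => 0)]
    · simp
    · intro t ht
      rw [uIcc_of_le (by norm_num)] at ht
      exact h a b t ht
  simp [this]

theorem I3_abs_le {F : ℝ → ℝ → ℝ → ℝ} {C : ℝ} (h : ∀ a b t, |F a b t| ≤ C) : |I3 F| ≤ C := by
  unfold I3
  have h1 : ∀ a b, ‖∫ t in (0 : ℝ)..1, F a b t‖ ≤ C := by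
    intro a b
    have := norm_integral_le_of_norm_le_const (a := (0 : ℝ)) (b := 1) (f := F a b) (C := C)
      fun t _ => h a b t
    simpa using this
  have h2 : ∀ a, ‖∫ b in (0 : ℝ)..1, ∫ t in (0 : ℝ)..1, F a b t‖ ≤ C := by
    intro a
    have := norm_integral_le_of_norm_le_const (a := (0 : ℝ)) (b := 1)
      (f := fun b => ∫ t in (0 : ℝ)..1, F a b t) (C := C) fun b _ => h1 a b
    simpa using this
  have := norm_integral_le_of_norm_le_const (a := (0 : ℝ)) (b := 1)
      (f := fun a => ∫ b in (0 : ℝ)..1, ∫ t in (0 : ℝ)..1, F a b t) (C := C) fun a _ => h2 a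
  simpa using this

/-- closed convex sets are stable under averaging -/
theorem mem_of_average {ι : Type*} [Fintype ι] {P : Set (ι → ℝ)} (hP : Convex ℝ P)
    (hPc : IsClosed P) {g : ι → ℝ → ℝ} (hg : ∀ i, Continuous (g i))
    (h : ∀ t, (fun i => g i t) ∈ P) : (fun i => ∫ t in (0 : ℝ)..1, g i t) ∈ P := by
  have : IsProbabilityMeasure (volume.restrict (Ioc (0 : ℝ) 1)) := ⟨by simp⟩
  have hint : Integrable (fun t i => g i t) (volume.restrict (Ioc (0 : ℝ) 1)) := by
    have h1 : Continuous (fun t i => g i t) := continuous_pi hg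
    exact (h1.integrableOn_Icc (a := 0) (b := 1)).mono_set Ioc_subset_Icc_self
  have h2 := hP.integral_mem hPc (Eventually.of_forall h) hint
  convert h2 using 1
  funext i
  rw [integral_of_le (by norm_num), eval_integral]
  intro i
  exact ((hg i).integrableOn_Icc (a := 0) (b := 1)).mono_set Ioc_subset_Icc_self

theorem I3_mem {ι : Type*} [Fintype ι] {P : Set (ι → ℝ)} (hP : Convex ℝ P)
    (hPc : IsClosed P) {G : ι → ℝ → ℝ → ℝ → ℝ} (hg : ∀ i, C3 (G i))
    (h : ∀ a b t, (fun i => G i a b t) ∈ P) : (fun i => I3 (G i)) ∈ P := by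
  unfold I3
  exact mem_of_average hP hPc (fun i => (hg i).outer) fun a =>
    mem_of_average hP hPc (fun i => (hg i).mid a) fun b =>
      mem_of_average hP hPc (fun i => (hg i).inner a b) fun t => h a b t

theorem swap01 {A : ℝ → ℝ → ℝ} (hA : Continuous fun q : ℝ × ℝ => A q.1 q.2) :
    ∫ a in (0 : ℝ)..1, ∫ b in (0 : ℝ)..1, A a b = ∫ b in (0 : ℝ)..1, ∫ a in (0 : ℝ)..1, A a b := by
  refine intervalIntegral_intervalIntegral_swap ?_
  have h1 : IntegrableOn (fun q : ℝ × ℝ => A q.1 q.2) (Icc 0 1 ×ˢ Icc 0 1) :=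
    hA.continuousOn.integrableOn_compact (isCompact_Icc.prod isCompact_Icc)
  refine h1.mono_set ?_
  rw [uIoc_of_le zero_le_one]
  exact prod_mono Ioc_subset_Icc_self Ioc_subset_Icc_self

/-- the integral of a `b`-derivative of a `b`-periodic function is zero -/
theorem I3_deriv_mid {H H' : ℝ → ℝ → ℝ → ℝ} (hH' : C3 H')
    (hd : ∀ a b t, HasDerivAt (fun b => H a b t) (H' a b t) b)
    (hper : ∀ a t, H a 1 t = H a 0 t) : I3 H' = 0 := by
  unfold I3
  have : ∀ a, ∫ b in (0 : ℝ)..1, ∫ t in (0 : ℝ)..1, H' a b t = 0 := by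
    intro a
    have hc : Continuous fun q : ℝ × ℝ => H' a q.1 q.2 := by
      have : Continuous fun q : ℝ × ℝ => ((a, q.1), q.2) := by fun_prop
      exact hH'.comp this
    rw [swap01 (A := H' a) hc]
    have h1 : ∀ t, ∫ b in (0 : ℝ)..1, H' a b t = 0 := by
      intro t
      have hcb : Continuous fun b => H' a b t := by
        have : Continuous fun b : ℝ => (b, t) := by fun_prop
        exact hc.comp this
      rw [integral_eq_sub_of_hasDerivAt (fun b _ => hd a b t) (hcb.intervalIntegrable _ _)]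
      rw [hper]; ring
    simp [h1]
  simp [this]

/-- the integral of an `a`-derivative of an `a`-periodic function is zero -/
theorem I3_deriv_outer {H H' : ℝ → ℝ → ℝ → ℝ} (hH' : C3 H')
    (hd : ∀ a b t, HasDerivAt (fun a => H a b t) (H' a b t) a)
    (hper : ∀ b t, H 1 b t = H 0 b t) : I3 H' = 0 := by
  have h1 : I3 H' = I3 fun a b t => H' b a t := by
    unfold I3
    exact swap01 (A := fun a b => ∫ t in (0 : ℝ)..1, H' a b t) hH'.mid'
  rw [h1]
  refine I3_deriv_mid (H := fun a b t => H b a t) ?_ (fun a b t => hd b a t) fun a t => hper a t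
  have : Continuous fun q : (ℝ × ℝ) × ℝ => ((q.1.2, q.1.1), q.2) := by fun_prop
  exact Continuous.comp (g := fun q : (ℝ × ℝ) × ℝ => H' q.1.1 q.1.2 q.2) hH' this

end Pool.Agent.W581.Cyc
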