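import Pool.Agent.W581.Cyc.Closed

set_option autoImplicit false

open MeasureTheory Set Topology Filter
open scoped ContDiff NNReal ENNReal

namespace Pool.Agent.W581.Cyc

/-- the support -/
def S : Set C2 := {z | ∃ (j : Fin 3) (t : ℝ) (a b : ℝ) (l : C2), t ∈ Icc (0 : ℝ) 1 ∧ InLattice l ∧
  z = pt j a b t + l}

theorem pt_re (j : Fin 3) (a b t : ℝ) (i : Fin 2) : (pt j a b t i).re = t / 3 * (dir j i).re := by
  unfold pt
  have h : (im2 a b i).re = 0 := by fin_cases i <;> simp [im2]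
  simp [h]

theorem S_add {z l : C2} (hl : InLattice l) (hz : z ∈ S) : z + l ∈ S := by
  obtain ⟨j, t, a, b, l', ht, hl', rfl⟩ := hz
  exact ⟨j, t, a, b, l' + l, ht, hl'.add hl, by abel⟩

theorem ev_bumpForm (p : C2) (δ : ℝ) (z e : C2) : ev (bumpForm p δ).1 z e = bump p δ z * ‖e‖ ^ 2 :=
  bumpForm_apply p δ z e

theorem trop_bump_zero (p : C2) (δ : ℝ) (h : ∀ z ∈ S, δ ≤ D p z) : trop (bumpForm p δ) = 0 := by
  rw [trop_apply]
  refine Finset.sum_eq_zero fun j _ => I3_eq_zero fun a b t ht => ?_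
  rw [ev_bumpForm, (bump_eq_zero_iff p δ _).2, zero_mul]
  exact h _ ⟨j, t, a, b, 0, ht, fun i => ⟨0, 0, by simp⟩, by simp⟩

theorem trop_bump_pos (p : C2) (δ : ℝ) (j₀ : Fin 3) {t₀ : ℝ} (ht : t₀ ∈ Icc (0 : ℝ) 1)
    (h : D p (pt j₀ 0 0 t₀) < δ) : 0 < trop (bumpForm p δ) := by
  rw [trop_apply]
  have hnn : ∀ (j : Fin 3) (a b t : ℝ), 0 ≤ ev (bumpForm p δ).1 (pt j a b t) (dir j) := by
    intro j a b t
    rw [ev_bumpForm]
    exact mul_nonneg (bump_nonneg _ _ _) (sq_nonneg _)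
  refine Finset.sum_pos' (fun j _ => I3_nonneg fun a b t => hnn j a b t)
    ⟨j₀, Finset.mem_univ _, ?_⟩
  refine I3_pos (C3_ev (formCont _) j₀) (hnn j₀) (a₀ := 0) (b₀ := 0) (by simp) (by simp) ht ?_
  rw [ev_bumpForm]
  exact mul_pos ((bump_pos_iff _ _ _).2 h) (norm_dir_sq j₀).2

theorem abs_re_le (z : C2) (j : Fin 2) : |(z j).re| ≤ ‖z‖ :=
  (Complex.abs_re_le_norm _).trans (PiLp.norm_apply_le z j)

/-- the coordinates of the vertex neighbourhood -/
theorem S_coords {z : C2} (hz : z ∈ S) : ∃ (j : Fin 3) (t : ℝ) (m n : ℤ), t ∈ Icc (0 : ℝ) (1 / 3) ∧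
    (z 0).re = t * (dir j 0).re + m ∧ (z 1).re = t * (dir j 1).re + n := by
  obtain ⟨j, t, a, b, l, ht, hl, rfl⟩ := hz
  obtain ⟨m, m', hm⟩ := hl 0
  obtain ⟨n, n', hn⟩ := hl 1
  refine ⟨j, t / 3, m, n, ⟨by linarith [ht.1], by linarith [ht.2]⟩, ?_, ?_⟩
  · rw [PiLp.add_apply, Complex.add_re, pt_re, hm]; simp
  · rw [PiLp.add_apply, Complex.add_re, pt_re, hn]; simp

theorem int_zero_of {m : ℤ} (h1 : (-1 : ℝ) < m) (h2 : (m : ℝ) < 1) : m = 0 := by
  have h3 : (-1 : ℤ) < m := by exact_mod_cast h1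
  have h4 : m < 1 := by exact_mod_cast h2
  omega

theorem near_p {s : ℝ} (hs : 0 < s) (hs1 : s ≤ 1 / 100) {z : C2}
    (hz : ‖z - s • dir 0‖ < s / 10) (hS : z ∈ S) : (z 0 + 2 * z 1).re = 0 := by
  have h0 := (abs_re_le (z - s • dir 0) 0).trans_lt hz
  have h1 := (abs_re_le (z - s • dir 0) 1).trans_lt hz
  obtain ⟨j, t, m, n, ht, e0, e1⟩ := S_coords hS
  simp [dir] at h0 h1
  rw [abs_lt] at h0 h1
  obtain ⟨ht0, ht1⟩ := ht
  have goal : (z 0 + 2 * z 1).re = (z 0).re + 2 * (z 1).re := by simp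
  rw [goal]
  fin_cases j
  · simp [dir] at e0 e1
    have hn : n = 0 := int_zero_of (by linarith) (by linarith)
    subst hn
    have hm : m = 0 := int_zero_of (by push_cast at *; linarith) (by push_cast at *; linarith)
    subst hm
    push_cast at *; linarith
  · exfalso
    simp [dir] at e0 e1
    have hm : m = 0 := int_zero_of (by linarith) (by linarith)
    subst hm
    push_cast at *; linarith
  · exfalso
    simp [dir] at e0 e1
    have hm : m = 0 := int_zero_of (by linarith) (by linarith)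
    subst hm
    push_cast at *; linarith

theorem near_q {s : ℝ} (hs : 0 < s) (hs1 : s ≤ 1 / 100) {z : C2}
    (hz : ‖z + s • dir 0‖ < 3 * s / 10) : z ∉ S := by
  intro hS
  have h0 := (abs_re_le (z + s • dir 0) 0).trans_lt hz
  have h1 := (abs_re_le (z + s • dir 0) 1).trans_lt hz
  obtain ⟨j, t, m, n, ht, e0, e1⟩ := S_coords hS
  simp [dir] at h0 h1
  rw [abs_lt] at h0 h1
  obtain ⟨ht0, ht1⟩ := ht
  fin_cases j
  · simp [dir] at e0 e1
    have hn : n = 0 := int_zero_of (by linarith) (by linarith)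
    subst hn
    push_cast at *; linarith
  · simp [dir] at e0 e1
    have hm : m = 0 := int_zero_of (by linarith) (by linarith)
    subst hm
    have hn : n = 0 := int_zero_of (by push_cast at *; linarith) (by push_cast at *; linarith)
    subst hn
    push_cast at *; linarith
  · simp [dir] at e0 e1
    have hm : m = 0 := int_zero_of (by linarith) (by linarith)
    subst hm
    have hn : n = 0 := int_zero_of (by push_cast at *; linarith) (by push_cast at *; linarith)
    subst hn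
    push_cast at *; linarith

end Pool.Agent.W581.Cyc
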