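import Pool.Agent.W581.Cyc.Defs

set_option autoImplicit false

open MeasureTheory Set Topology Filter
open scoped ContDiff NNReal

namespace Pool.Agent.W581.Cyc

theorem exists_transverse (A : C2 →L[ℂ] ℂ) (hA : A ≠ 0) :
    ∃ (G : C2 →L[ℂ] ℂ) (Φ : C2 ≃L[ℂ] ℂ × ℂ), (Φ : C2 →L[ℂ] ℂ × ℂ) = A.prod G := by
  set a := A (EuclideanSpace.single 0 1)
  set b := A (EuclideanSpace.single 1 1)
  have hw : ∀ w : C2, w = w 0 • EuclideanSpace.single 0 1 + w 1 • EuclideanSpace.single 1 1 := by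
    intro w
    ext j
    fin_cases j <;> simp
  have hAw : ∀ w : C2, A w = a * w 0 + b * w 1 := by
    intro w
    conv_lhs => rw [hw w]
    rw [map_add, map_smul, map_smul]
    simp [a, b, mul_comm]
  let G : C2 →L[ℂ] ℂ := (-(starRingEnd ℂ b)) • (EuclideanSpace.proj 0 : C2 →L[ℂ] ℂ) +
    (starRingEnd ℂ a) • (EuclideanSpace.proj 1 : C2 →L[ℂ] ℂ)
  have hG : ∀ w : C2, G w = -(starRingEnd ℂ b) * w 0 + (starRingEnd ℂ a) * w 1 := by
    intro w; simp [G]
  have hab : a * starRingEnd ℂ a + b * starRingEnd ℂ b ≠ 0 := by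
    rw [Complex.mul_conj, Complex.mul_conj]
    intro h
    have h1 : Complex.normSq a + Complex.normSq b = 0 := by exact_mod_cast h
    have h2 := Complex.normSq_nonneg a
    have h3 := Complex.normSq_nonneg b
    have h4 : a = 0 := Complex.normSq_eq_zero.1 (by linarith)
    have h5 : b = 0 := Complex.normSq_eq_zero.1 (by linarith)
    apply hA
    ext w
    rw [hAw, h4, h5]; simp
  have hinj : Function.Injective (A.prod G : C2 →L[ℂ] ℂ × ℂ) := by
    rw [injective_iff_map_eq_zero]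
    intro w hw0
    have h1 : a * w 0 + b * w 1 = 0 := by
      have := congrArg Prod.fst hw0
      simpa [hAw] using this
    have h2 : -(starRingEnd ℂ b) * w 0 + (starRingEnd ℂ a) * w 1 = 0 := by
      have := congrArg Prod.snd hw0
      simpa [hG] using this
    have h3 : w 0 = 0 := by
      have : (a * starRingEnd ℂ a + b * starRingEnd ℂ b) * w 0 = 0 := by
        linear_combination (starRingEnd ℂ a) * h1 - b * h2
      exact (mul_eq_zero.1 this).resolve_left hab
    have h4 : w 1 = 0 := by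
      have : (a * starRingEnd ℂ a + b * starRingEnd ℂ b) * w 1 = 0 := by
        linear_combination (starRingEnd ℂ b) * h1 + a * h2
      exact (mul_eq_zero.1 this).resolve_left hab
    ext j
    fin_cases j
    · simpa using h3
    · simpa using h4
  have hfin : Module.finrank ℂ C2 = Module.finrank ℂ (ℂ × ℂ) := by
    simp
  let e : C2 ≃ₗ[ℂ] ℂ × ℂ :=
    LinearEquiv.ofInjectiveOfFinrankEq (A.prod G : C2 →ₗ[ℂ] ℂ × ℂ) hinj hfin
  refine ⟨G, e.toContinuousLinearEquiv, ?_⟩
  ext w <;> rfl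

/-- Local holomorphic parametrisation of a smooth curve in `ℂ²`. -/
theorem exists_param {W : Set C2} {f : C2 → ℂ} {z : C2} (hW : IsOpen W) (hz : z ∈ W)
    (hf : AnalyticOnNhd ℂ f W) (hA : fderiv ℂ f z ≠ 0) (hfz : f z = 0) :
    ∃ (G : C2 →L[ℂ] ℂ) (ψ : ℂ → C2) (N : Set C2) (K : ℝ≥0), IsOpen N ∧ z ∈ N ∧ N ⊆ W ∧
      (∀ w ∈ N, f w = 0 → ψ (G w) = w) ∧ LipschitzOnWith K ψ (G '' (N ∩ {w | f w = 0})) ∧
      ψ (G z) = z ∧
      (∀ᶠ t in 𝓝 (G z), DifferentiableAt ℂ ψ t ∧ f (ψ t) = 0 ∧ G (ψ t) = t) := by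
  obtain ⟨G, Φ, hΦ⟩ := exists_transverse (fderiv ℂ f z) hA
  let F : C2 → ℂ × ℂ := fun w => (f w, G w)
  have hFan : AnalyticAt ℂ F z := (hf z hz).prod (G.analyticAt z)
  have hF : HasStrictFDerivAt F (Φ : C2 →L[ℂ] ℂ × ℂ) z := by
    rw [hΦ]
    exact (hf z hz).hasStrictFDerivAt.prodMk G.hasStrictFDerivAt
  let P := hF.toOpenPartialHomeomorph F
  have hPz : z ∈ P.source := hF.mem_toOpenPartialHomeomorph_source
  have hPF : ∀ w, P w = F w := fun w => by
    rw [hF.toOpenPartialHomeomorph_coe]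
  have hPsymm : P.symm (F z) = z := by
    rw [← hPF, P.left_inv hPz]
  have hinv : HasStrictFDerivAt P.symm (Φ.symm : ℂ × ℂ →L[ℂ] C2) (F z) := hF.to_localInverse
  obtain ⟨K, s, hs, hK⟩ := hinv.exists_lipschitzOnWith
  have hcd : ContDiffAt ℂ 1 P.symm (F z) := by
    refine P.contDiffAt_symm (f₀' := Φ) ?_ ?_ ?_
    · rw [← hPF]; exact P.map_source hPz
    · rw [hPsymm]
      have : (P : C2 → ℂ × ℂ) = F := funext hPF
      rw [this]
      exact hF.hasFDerivAt
    · rw [hPsymm]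
      have : (P : C2 → ℂ × ℂ) = F := funext hPF
      rw [this]
      exact hFan.contDiffAt
  have hFz : F z = (0, G z) := by simp [F, hfz]
  have hFcont : ContinuousAt F z := hFan.continuousAt
  obtain ⟨N₀, hN₀s, hN₀o, hN₀z⟩ := mem_nhds_iff.1
    (inter_mem (inter_mem (P.open_source.mem_nhds hPz) (hW.mem_nhds hz)) (hFcont hs))
  refine ⟨G, fun t => P.symm (0, t), N₀, K, hN₀o, hN₀z, fun w hw => (hN₀s hw).1.2, ?_, ?_, ?_, ?_⟩
  · intro w hw hfw
    have h1 : w ∈ P.source := (hN₀s hw).1.1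
    have h2 : (0, G w) = P w := by rw [hPF]; simp [F, hfw]
    show P.symm (0, G w) = w
    rw [h2, P.left_inv h1]
  · rintro t ⟨w, ⟨hwN, hfw⟩, rfl⟩ t' ⟨w', ⟨hwN', hfw'⟩, rfl⟩
    have h1 : ((0 : ℂ), G w) ∈ s := by
      have := (hN₀s hwN).2
      simp only [Set.mem_preimage, F] at this
      rwa [show f w = 0 from hfw] at this
    have h2 : ((0 : ℂ), G w') ∈ s := by
      have := (hN₀s hwN').2
      simp only [Set.mem_preimage, F] at this
      rwa [show f w' = 0 from hfw'] at this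
    have := hK h1 h2
    simpa [Prod.edist_eq] using this
  · show P.symm (0, G z) = z
    rw [← hFz, hPsymm]
  · have hι : ContinuousAt (fun t : ℂ => ((0 : ℂ), t)) (G z) := by fun_prop
    have h1 : ∀ᶠ q in 𝓝 ((0 : ℂ), G z), DifferentiableAt ℂ P.symm q ∧ q ∈ P.target := by
      rw [← hFz]
      refine ((hcd.eventually (by simp)).mono fun q hq => hq.differentiableAt (by simp)).and ?_
      rw [← hPF]
      exact P.open_target.mem_nhds (P.map_source hPz)
    have h2 := hι.eventually h1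
    refine h2.mono fun t ht => ?_
    have h3 : F (P.symm (0, t)) = (0, t) := by
      rw [← hPF, P.right_inv ht.2]
    refine ⟨?_, ?_, ?_⟩
    · have : DifferentiableAt ℂ (fun t : ℂ => ((0 : ℂ), t)) t := by fun_prop
      exact ht.1.comp t this
    · exact congrArg Prod.fst h3
    · exact congrArg Prod.snd h3

end Pool.Agent.W581.Cyc
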